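import Pool.Agent.Helper91.PL.Defs2

/-!
# MP_bae8ce_ag : module A5 (kernels of the maps `δo`, Frobenius)
-/

set_option autoImplicit false
set_option linter.unusedSectionVars false

open Finset

open scoped TensorProduct

namespace PL

noncomputable section

universe u

variable {F : Type u} [Field F]

theorem a5_mem_NN {q : ℕ} {α : ZP F} : α ∈ NN q F ↔
    ∀ φ : MultilinearMap ℚ (fun _ : Fin (q + 2) => V F) ℚ,
      Finsupp.linearCombination ℚ (Sy φ) α = 0 := by
  unfold NN
  rw [Submodule.mem_iInf]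
  rfl

/-- functionals and linear combinations -/
theorem a5_lc {ι M N : Type*} [AddCommGroup M] [Module ℚ M] [AddCommGroup N] [Module ℚ N]
    (L : M →ₗ[ℚ] N) (f : ι → M) (α : ι →₀ ℚ) :
    L (Finsupp.linearCombination ℚ f α) = Finsupp.linearCombination ℚ (fun x => L (f x)) α := by
  rw [Finsupp.linearCombination_apply, Finsupp.linearCombination_apply, map_finsuppSum]
  simp

theorem a5_fun2 {q : ℕ} {M : Type*} (a b : M) (c : Fin q → M) :
    (Fin.cons a (Fin.cons b c : Fin (q + 1) → M) : Fin (q + 2) → M) =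
      Matrix.vecCons a (Matrix.vecCons b c) := rfl

theorem a5_alt (φ : MultilinearMap ℚ (fun _ : Fin 2 => V F) ℚ) (a b : V F) :
    MultilinearMap.alternatization φ ![a, b] = φ ![a, b] - φ ![b, a] := by
  rw [MultilinearMap.alternatization_apply]
  have : (Finset.univ : Finset (Equiv.Perm (Fin 2))) = {1, Equiv.swap 0 1} := by decide
  rw [this, Finset.sum_insert (by decide), Finset.sum_singleton]
  rw [Equiv.Perm.sign_one, Equiv.Perm.sign_swap (by decide)]
  simp only [one_smul, MultilinearMap.domDomCongr_apply, Units.neg_smul]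
  rw [← sub_eq_add_neg]
  congr 1
  congr 1
  funext i
  fin_cases i <;> rfl

theorem a5_Sy0 (φ : MultilinearMap ℚ (fun _ : Fin (0 + 2) => V F) ℚ) (x : P1 F) :
    Sy φ x = φ ![cl1 x, cl x] - φ ![cl x, cl1 x] := by
  unfold Sy
  congr 2
  · ext i; fin_cases i <;> rfl
  · ext i; fin_cases i <;> rfl

theorem ker_δ2x : LinearMap.ker (δ2o F) = NN 0 F := by
  ext α
  rw [LinearMap.mem_ker, a5_mem_NN]
  constructor
  · intro h φ
    have h1 := congrArg (exteriorPower.alternatingMapLinearEquiv
      (MultilinearMap.alternatization φ)) h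
    rw [map_zero] at h1
    unfold δ2o at h1
    rw [a5_lc] at h1
    rw [← h1]
    congr 1
    congr 1
    funext x
    rw [exteriorPower.alternatingMapLinearEquiv_apply_ιMulti]
    rw [a5_Sy0]
    exact (a5_alt φ _ _).symm
  · intro h
    rw [← Module.forall_dual_apply_eq_zero_iff ℚ]
    intro l
    obtain ⟨A, rfl⟩ := (exteriorPower.alternatingMapLinearEquiv (R := ℚ) (M := V F) (N := ℚ)
      (n := 2)).surjective l
    unfold δ2o
    rw [a5_lc]
    have h1 := h A.toMultilinearMap
    have h2 : Sy A.toMultilinearMap = fun x : P1 F => (2 : ℚ) • A ![cl1 x, cl x] := by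
      funext x
      rw [a5_Sy0]
      have h3 : A ![cl x, cl1 x] = - A ![cl1 x, cl x] := by
        have := A.map_swap ![cl1 x, cl x] (i := 0) (j := 1) (by decide)
        rw [← this]
        congr 1
        ext i
        fin_cases i <;> rfl
      show A ![cl1 x, cl x] - A ![cl x, cl1 x] = _
      rw [h3, smul_eq_mul]
      ring
    rw [h2] at h1
    have h4 : Finsupp.linearCombination ℚ (fun x : P1 F => (2 : ℚ) • A ![cl1 x, cl x]) α =
        (2 : ℚ) • Finsupp.linearCombination ℚ (fun x : P1 F => A ![cl1 x, cl x]) α := by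
      rw [Finsupp.linearCombination_apply, Finsupp.linearCombination_apply, Finsupp.smul_sum]
      apply Finsupp.sum_congr
      intro x _
      rw [smul_comm]
    rw [h4, smul_eq_zero] at h1
    have h5 := h1.resolve_left (by norm_num)
    rw [← h5]
    congr 1
    congr 1
    funext x
    rw [exteriorPower.alternatingMapLinearEquiv_apply_ιMulti]

/-- separation of tensors by functionals of the second factor -/
theorem a5_sep {B' V' : Type*} [AddCommGroup B'] [Module ℚ B'] [AddCommGroup V'] [Module ℚ V']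
    (z : B' ⊗[ℚ] V')
    (h : ∀ l : V' →ₗ[ℚ] ℚ, TensorProduct.rid ℚ B' (LinearMap.lTensor B' l z) = 0) : z = 0 := by
  classical
  let b := Module.Basis.ofVectorSpace ℚ V'
  let e := TensorProduct.equivFinsuppOfBasisRight (R := ℚ) (M := B') b
  have h1 : ∀ i, ∀ z : B' ⊗[ℚ] V', e z i = TensorProduct.rid ℚ B' (LinearMap.lTensor B' (b.coord i) z) := by
    intro i z
    induction z with
    | zero => simp
    | tmul m n =>
      simp [e, TensorProduct.equivFinsuppOfBasisRight_apply_tmul_apply]
    | add x y hx hy => rw [map_add, Finsupp.add_apply, hx, hy]; simp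
  apply e.injective
  rw [map_zero]
  ext i
  rw [h1, h]
  rfl

theorem a5_snoc_cons {n : ℕ} {M : Type*} (a : M) (c : Fin n → M) (v : M) :
    (Fin.snoc (Fin.cons a c : Fin (n + 1) → M) v : Fin (n + 2) → M) =
      Fin.cons a (Fin.snoc c v : Fin (n + 1) → M) := by
  rw [Fin.cons_snoc_eq_snoc_cons]

theorem a5_snoc_const {n : ℕ} {M : Type*} (v : M) :
    (Fin.snoc (fun _ : Fin n => v) v : Fin (n + 1) → M) = fun _ => v := by
  funext i
  refine Fin.lastCases ?_ (fun j => ?_) i
  · simp
  · simp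

theorem ker_δx (q : ℕ) : LinearMap.ker (δo (NN q F)) = NN (q + 1) F := by
  ext α
  rw [LinearMap.mem_ker, a5_mem_NN]
  constructor
  · intro h ψ
    let C : MultilinearMap ℚ (fun _ : Fin (q + 2) => V F) (V F →ₗ[ℚ] ℚ) := ψ.curryRight
    let S : ZP F →ₗ[ℚ] (V F →ₗ[ℚ] ℚ) := Finsupp.linearCombination ℚ fun x =>
      C (Fin.cons (cl1 x) fun _ => cl x) - C (Fin.cons (cl x) (Fin.cons (cl1 x) fun _ => cl x))
    have hS : NN q F ≤ LinearMap.ker S := by
      intro γ hγ
      rw [LinearMap.mem_ker]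
      refine LinearMap.ext fun v => ?_
      have h1 := (a5_mem_NN.1 hγ) ((LinearMap.applyₗ v).compMultilinearMap C)
      have h2 : (S γ) v = (LinearMap.applyₗ v : (V F →ₗ[ℚ] ℚ) →ₗ[ℚ] ℚ) (S γ) := rfl
      rw [h2]
      simp only [S]
      rw [a5_lc, LinearMap.zero_apply, ← h1]
      rfl
    let T := TensorProduct.lift ((NN q F).liftQ S hS)
    have h3 := congrArg T h
    rw [map_zero] at h3
    unfold δo at h3
    rw [a5_lc] at h3
    rw [← h3]
    congr 1
    congr 1
    funext x
    simp only [T, TensorProduct.lift.tmul, Submodule.mkQ_apply, Submodule.liftQ_apply, S,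
      Finsupp.linearCombination_single, one_smul, LinearMap.sub_apply]
    unfold Sy
    have e1 : C (Fin.cons (cl1 x) fun _ => cl x) (cl x) =
        ψ (Fin.snoc (Fin.cons (cl1 x) fun _ => cl x : Fin (q + 2) → V F) (cl x)) := rfl
    have e2 : C (Fin.cons (cl x) (Fin.cons (cl1 x) fun _ => cl x)) (cl x) =
        ψ (Fin.snoc (Fin.cons (cl x) (Fin.cons (cl1 x) fun _ => cl x) : Fin (q + 2) → V F)
          (cl x)) := rfl
    rw [e1, e2, a5_snoc_cons, a5_snoc_const, a5_snoc_cons, a5_snoc_cons, a5_snoc_const]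
  · intro h
    apply a5_sep
    intro l
    have h1 : TensorProduct.rid ℚ _ (LinearMap.lTensor (ZP F ⧸ NN q F) l (δo (NN q F) α)) =
        (NN q F).mkQ (Finsupp.linearCombination ℚ (fun x : P1 F => l (cl x) •
          (Finsupp.single x 1 : ZP F)) α) := by
      unfold δo
      rw [a5_lc, a5_lc]
      have := a5_lc (TensorProduct.rid ℚ (ZP F ⧸ NN q F)).toLinearMap
        (fun x : P1 F => LinearMap.lTensor (ZP F ⧸ NN q F) l
          ((NN q F).mkQ (Finsupp.single x 1) ⊗ₜ[ℚ] cl x)) α
      refine this.trans ?_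
      congr 1
    rw [h1]
    rw [Submodule.mkQ_apply, Submodule.Quotient.mk_eq_zero, a5_mem_NN]
    intro φ
    have h2 := h (MultilinearMap.uncurryRight (φ.smulRight l))
    rw [a5_lc, ← h2]
    congr 1
    congr 1
    funext x
    rw [map_smul, Finsupp.linearCombination_single, one_smul, smul_eq_mul]
    unfold Sy
    have e1 : (MultilinearMap.uncurryRight (φ.smulRight l))
        (Fin.cons (cl1 x) fun _ => cl x : Fin (q + 3) → V F) =
        φ (Fin.cons (cl1 x) fun _ => cl x) * l (cl x) := by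
      have : (Fin.cons (cl1 x) fun _ => cl x : Fin (q + 3) → V F) =
          Fin.snoc (Fin.cons (cl1 x) fun _ => cl x : Fin (q + 2) → V F) (cl x) := by
        rw [a5_snoc_cons, a5_snoc_const]
      rw [this]
      simp [MultilinearMap.uncurryRight_apply]
    have e2 : (MultilinearMap.uncurryRight (φ.smulRight l))
        (Fin.cons (cl x) (Fin.cons (cl1 x) fun _ => cl x) : Fin (q + 3) → V F) =
        φ (Fin.cons (cl x) (Fin.cons (cl1 x) fun _ => cl x)) * l (cl x) := by
      have : (Fin.cons (cl x) (Fin.cons (cl1 x) fun _ => cl x) : Fin (q + 3) → V F) =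
          Fin.snoc (Fin.cons (cl x) (Fin.cons (cl1 x) fun _ => cl x) : Fin (q + 2) → V F)
            (cl x) := by
        rw [a5_snoc_cons, a5_snoc_cons, a5_snoc_const]
      rw [this]
      simp [MultilinearMap.uncurryRight_apply]
    rw [e1, e2]
    ring

theorem a5_lg_pow (x : F) (n : ℕ) (hn : n ≠ 0) : lg (x ^ n) = (n : ℚ) • lg x := by
  unfold lg
  by_cases hx : x = 0
  · subst hx
    rw [dif_pos (zero_pow hn), dif_pos rfl, smul_zero]
  · rw [dif_neg (pow_ne_zero n hx), dif_neg hx]
    have h1 : Units.mk0 (x ^ n) (pow_ne_zero n hx) = (Units.mk0 x hx) ^ n := by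
      ext; simp
    rw [h1, ofMul_pow, Nat.cast_smul_eq_nsmul ℚ]
    exact map_nsmul (TensorProduct.mk ℤ ℚ _ 1) n _

theorem a5_smul_form {n : ℕ} (φ : MultilinearMap ℚ (fun _ : Fin n => V F) ℚ) (c : ℚ)
    (m : Fin n → V F) : φ (fun i => c • m i) = c ^ n * φ m := by
  have := φ.map_smul_univ (fun _ => c) m
  simpa using this

/-- Frobenius: `{f^Q} - Q^(q+2) {f}` is in the kernel of the symbol. -/
theorem frob_NN (p : ℕ) [Fact p.Prime] [CharP F p] (q m : ℕ) (f : F) :
    Finsupp.single (some (f ^ p ^ m)) (1 : ℚ) - ((p : ℚ) ^ m) ^ (q + 2) •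
      Finsupp.single (some f) 1 ∈ NN q F := by
  rw [a5_mem_NN]
  intro φ
  have hp : p ^ m ≠ 0 := pow_ne_zero _ (Fact.out : p.Prime).ne_zero
  rw [map_sub, map_smul, Finsupp.linearCombination_single, Finsupp.linearCombination_single,
    one_smul, one_smul, smul_eq_mul, sub_eq_zero]
  have h1 : cl (some (f ^ p ^ m)) = ((p : ℚ) ^ m) • cl (some f) := by
    show lg (f ^ p ^ m) = _ • lg f
    rw [a5_lg_pow _ _ hp]
    push_cast
    rfl
  have h2 : cl1 (some (f ^ p ^ m)) = ((p : ℚ) ^ m) • cl1 (some f) := by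
    show lg (1 - f ^ p ^ m) = _ • lg (1 - f)
    have : (1 - f ^ p ^ m) = (1 - f) ^ p ^ m := by
      rw [sub_pow_char_pow, one_pow]
    rw [this, a5_lg_pow _ _ hp]
    push_cast
    rfl
  unfold Sy
  rw [h1, h2, mul_sub, ← a5_smul_form, ← a5_smul_form]
  congr 2
  · funext i
    refine Fin.cases ?_ (fun j => ?_) i <;> simp
  · funext i
    refine Fin.cases ?_ (fun j => ?_) i
    · simp
    · refine Fin.cases ?_ (fun j => ?_) j <;> simp

theorem ker_δ2 : LinearMap.ker (δ2 F) = NN 0 F := ker_δ2x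

theorem ker_δ (q : ℕ) : LinearMap.ker (δ (NN q F)) = NN (q + 1) F := ker_δx q

end

end PL
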