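import Pool.Agent.Helper91.PL.Defs2
import Pool.Agent.Helper91.PL.A1
import Pool.Agent.Helper91.PL.A5

/-!
# MP_bae8ce_ag, modules X1 and X3 : the complexes are well defined, the terms for `F`
-/

set_option autoImplicit false

open Finset

open scoped TensorProduct

namespace PL

noncomputable section

section gen

variable {K : Type} [Field K]

theorem x1_wedge_apply (j : ℕ) (a : V K) (v : Fin j → V K) :
    wedge K j a (exteriorPower.ιMulti ℚ j v) =
      exteriorPower.ιMulti ℚ (j + 1) (Matrix.vecCons a v) := by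
  unfold wedge
  simp [exteriorPower.alternatingMapLinearEquiv_apply_ιMulti]

theorem x1_wedge_wedge (j : ℕ) (a : V K) : wedge K (j + 1) a ∘ₗ wedge K j a = 0 := by
  apply exteriorPower.linearMap_ext
  ext v : 1
  simp only [LinearMap.compAlternatingMap_apply, LinearMap.coe_comp, Function.comp_apply,
    x1_wedge_apply, LinearMap.zero_apply]
  exact AlternatingMap.map_eq_zero_of_eq _ _ (i := 0) (j := 1) (by simp) (by simp)

/-- An alternating bilinear map as an alternating map. -/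
def x1_alt {U N : Type} [AddCommGroup U] [Module ℚ U] [AddCommGroup N] [Module ℚ N]
    (B : U →ₗ[ℚ] U →ₗ[ℚ] N) (h : ∀ a, B a a = 0) : U [⋀^Fin 2]→ₗ[ℚ] N where
  toFun v := B (v 0) (v 1)
  map_update_add' := by
    intro inst m i x y
    fin_cases i <;> simp [Function.update]
  map_update_smul' := by
    intro inst m i c x
    fin_cases i <;> simp [Function.update]
  map_eq_zero_of_eq' := by
    intro v i j hv hij
    fin_cases i <;> fin_cases j
    · exact absurd rfl hij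
    · have h1 : v 0 = v 1 := hv
      rw [h1]
      exact h _
    · have h1 : v 1 = v 0 := hv
      rw [h1]
      exact h _
    · exact absurd rfl hij

/-- `a, b ↦ (λ ↦ a ∧ b ∧ λ)`. -/
def x1_bil (K : Type) [Field K] (j : ℕ) :
    V K →ₗ[ℚ] V K →ₗ[ℚ] ⋀[ℚ]^j (V K) →ₗ[ℚ] ⋀[ℚ]^(j + 2) (V K) :=
  LinearMap.mk₂ ℚ (fun a b => wedge K (j + 1) a ∘ₗ wedge K j b)
    (by intro a a' b; rw [map_add, LinearMap.add_comp])
    (by intro c a b; rw [map_smul, LinearMap.smul_comp])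
    (by intro a b b'; rw [map_add, LinearMap.comp_add])
    (by intro c a b; rw [map_smul, LinearMap.comp_smul])

/-- `a ∧ b ↦ (λ ↦ a ∧ b ∧ λ)`. -/
def x1_lin (K : Type) [Field K] (j : ℕ) :
    ⋀[ℚ]^2 (V K) →ₗ[ℚ] ⋀[ℚ]^j (V K) →ₗ[ℚ] ⋀[ℚ]^(j + 2) (V K) :=
  (exteriorPower.alternatingMapLinearEquiv (R := ℚ) (M := V K)
    (N := ⋀[ℚ]^j (V K) →ₗ[ℚ] ⋀[ℚ]^(j + 2) (V K)) (n := 2))
    (x1_alt (U := V K) (N := ⋀[ℚ]^j (V K) →ₗ[ℚ] ⋀[ℚ]^(j + 2) (V K)) (x1_bil K j)
      (fun a => x1_wedge_wedge j a))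

theorem x1_pre2 (K : Type) [Field K] (j : ℕ) :
    pre2 K j = x1_lin K j ∘ₗ δ2o K := by
  apply Finsupp.lhom_ext
  intro x c
  unfold pre2 δ2o x1_lin
  rw [LinearMap.comp_apply, Finsupp.linearCombination_single, Finsupp.linearCombination_single,
    map_smul, exteriorPower.alternatingMapLinearEquiv_apply_ιMulti]
  rfl

/-- `b ⊗ v ↦ (λ ↦ b ⊗ (v ∧ λ))`. -/
def x1_ten (K : Type) [Field K] (q j : ℕ) :
    B (q + 2) K ⊗[ℚ] V K →ₗ[ℚ] ⋀[ℚ]^j (V K) →ₗ[ℚ] B (q + 2) K ⊗[ℚ] ⋀[ℚ]^(j + 1) (V K) :=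
  TensorProduct.lift (LinearMap.mk₂ ℚ
    (fun b v => (TensorProduct.mk ℚ (B (q + 2) K) (⋀[ℚ]^(j + 1) (V K)) b) ∘ₗ wedge K j v)
    (by intro a a' b; rw [map_add, LinearMap.add_comp])
    (by intro c a b; rw [map_smul, LinearMap.smul_comp])
    (by intro a b b'; rw [map_add, LinearMap.comp_add])
    (by intro c a b; rw [map_smul, LinearMap.comp_smul]))

theorem x1_pre3 (K : Type) [Field K] (q j : ℕ) :
    pre3 K q j = x1_ten K q j ∘ₗ δo (R (q + 2) K) := by
  apply Finsupp.lhom_ext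
  intro x c
  unfold pre3 δo
  rw [LinearMap.comp_apply, Finsupp.linearCombination_single, Finsupp.linearCombination_single,
    map_smul]
  rfl

end gen

variable {F : Type} [Field F]

theorem wd2 (K : Type) [Field K] (hR : R 2 K = NN 0 K) (j : ℕ) :
    R 2 K ≤ LinearMap.ker (pre2 K j) := by
  rw [hR, ← ker_δ2x, x1_pre2]
  intro α hα
  rw [LinearMap.mem_ker] at hα ⊢
  rw [LinearMap.comp_apply, hα, map_zero]

theorem wd3 (K : Type) [Field K] (q : ℕ) (hR : R (q + 2) K = NN q K)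
    (hR' : R (q + 3) K = NN (q + 1) K) (j : ℕ) :
    R (q + 3) K ≤ LinearMap.ker (pre3 K q j) := by
  rw [hR', ← ker_δx, x1_pre3, ← hR]
  intro α hα
  rw [LinearMap.mem_ker] at hα ⊢
  rw [LinearMap.comp_apply, hα, map_zero]

/-! ## X3 -/

/-- A vector space spanned by zero vectors is zero. -/
private theorem x3_sub {M : Type} [AddCommGroup M] [Module ℚ M] (S : Set M)
    (hS : Submodule.span ℚ S = ⊤) (h : ∀ x ∈ S, x = 0) : Subsingleton M := by
  refine subsingleton_of_forall_eq 0 fun x => ?_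
  have h1 : Submodule.span ℚ S = ⊥ := Submodule.span_eq_bot.2 h
  have h2 : x ∈ (⊥ : Submodule ℚ M) := by
    rw [← h1, hS]
    trivial
  exact (Submodule.mem_bot ℚ).1 h2

theorem x3_V (p : ℕ) [Fact p.Prime]
    (hF : ∀ x : F, ∃ m, 0 < m ∧ x ^ p ^ m = x) : Subsingleton (V F) := by
  refine x3_sub _ span_lg ?_
  rintro _ ⟨x, rfl⟩
  obtain ⟨m, hm, hx⟩ := hF x
  refine lg_eq_zero ?_ hx
  have h2 : 2 ≤ p := (Fact.out : p.Prime).two_le
  calc 2 ≤ p := h2
    _ = p ^ 1 := (pow_one p).symm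
    _ ≤ p ^ m := Nat.pow_le_pow_right (by omega) hm

theorem x3_wedge (p : ℕ) [Fact p.Prime]
    (hF : ∀ x : F, ∃ m, 0 < m ∧ x ^ p ^ m = x) (j : ℕ) :
    Subsingleton (⋀[ℚ]^(j + 1) (V F)) := by
  have := x3_V p hF
  refine x3_sub _ (exteriorPower.ιMulti_span ℚ (j + 1) (V F)) ?_
  rintro _ ⟨v, rfl⟩
  exact AlternatingMap.map_coord_zero _ 0 (Subsingleton.elim _ _)

theorem x3_NN (p : ℕ) [Fact p.Prime]
    (hF : ∀ x : F, ∃ m, 0 < m ∧ x ^ p ^ m = x) (q : ℕ) : NN q F = ⊤ := by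
  have := x3_V p hF
  unfold NN
  rw [iInf_eq_top]
  intro φ
  rw [LinearMap.ker_eq_top]
  apply Finsupp.lhom_ext
  intro x c
  rw [Finsupp.linearCombination_single]
  have h1 : ∀ v : Fin (q + 2) → V F, φ v = 0 := fun v =>
    φ.map_coord_zero 0 (Subsingleton.elim _ _)
  unfold Sy
  rw [h1, h1]
  simp

theorem T_subsingleton (p : ℕ) [Fact p.Prime] [CharP F p]
    (hF : ∀ x : F, ∃ m, 0 < m ∧ x ^ p ^ m = x) (hR : ∀ q, R (q + 2) F = NN q F) (k j : ℕ)
    (h : 1 ≤ k + j) : Subsingleton (T F k j) := by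
  match k, h with
  | 0, _ => exact inferInstanceAs (Subsingleton PUnit)
  | 1, _ => exact x3_wedge p hF j
  | (q + 2), _ =>
    have h1 : Subsingleton (B (q + 2) F) := by
      rw [Submodule.Quotient.subsingleton_iff, hR, x3_NN p hF]
    have h2 : Subsingleton (B (q + 2) F ⊗[ℚ] ⋀[ℚ]^j (V F)) := by
      refine ⟨fun a b => ?_⟩
      have : ∀ a : B (q + 2) F ⊗[ℚ] ⋀[ℚ]^j (V F), a = 0 := by
        intro a
        induction a using TensorProduct.induction_on with
        | zero => rfl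
        | tmul x y => rw [Subsingleton.elim x 0, TensorProduct.zero_tmul]
        | add x y hx hy => rw [hx, hy, add_zero]
      rw [this a, this b]
    exact h2

end

end PL
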