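import Pool.Agent.Helper91.PL.Defs2

/-!
# MP_bae8ce_ag, module E2 : the algebraic contraction
-/

set_option autoImplicit false
set_option linter.unusedSectionVars false

open Finset

namespace PL

noncomputable section

universe u

section E2

variable {U : Type u} [AddCommGroup U] [Module ℚ U]

/-- Polarisation. -/
theorem e2_polar {n : ℕ} (L : MultilinearMap ℚ (fun _ : Fin n => U) ℚ)
    (h : ∀ x, L (fun _ => x) = 0) (x y : U) :
    ∑ i, L (Function.update (fun _ => y) i x) = 0 := by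
  classical
  have h1 : ∀ t : ℚ, ∑ s : Finset (Fin n),
      L (s.piecewise (fun _ => x) (fun _ => y)) * t ^ s.card = 0 := by
    intro t
    have h0 := h (t • x + y)
    have h2 := L.map_add_univ (fun _ => t • x) (fun _ => y)
    have h3 : ((fun _ : Fin n => t • x) + fun _ => y) = fun _ => t • x + y := rfl
    rw [h3, h0] at h2
    rw [h2]
    refine Finset.sum_congr rfl fun s _ => ?_
    have h4 : (s.piecewise (fun _ : Fin n => t • x) fun _ => y) =
        s.piecewise (fun i => (fun _ : Fin n => t) i • (s.piecewise (fun _ => x) fun _ => y) i)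
          (s.piecewise (fun _ => x) fun _ => y) := by
      funext i
      by_cases hi : i ∈ s <;> simp [hi]
    rw [h4, L.map_piecewise_smul]
    simp [mul_comm]
  have h2 : (∑ s : Finset (Fin n), Polynomial.C (L (s.piecewise (fun _ => x) (fun _ => y))) *
      Polynomial.X ^ s.card) = 0 := by
    apply Polynomial.funext
    intro t
    rw [Polynomial.eval_finsetSum]
    simpa using h1 t
  have h3 := congrArg (fun P => Polynomial.coeff P 1) h2
  simp only [Polynomial.finsetSum_coeff, Polynomial.coeff_C_mul, Polynomial.coeff_X_pow,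
    Polynomial.coeff_zero, mul_ite, mul_one, mul_zero] at h3
  rw [← Finset.sum_filter] at h3
  have h4 : (univ.filter fun s : Finset (Fin n) => 1 = s.card) =
      univ.image fun i : Fin n => ({i} : Finset (Fin n)) := by
    ext s
    simp only [mem_filter, mem_univ, true_and, mem_image]
    constructor
    · intro hs
      obtain ⟨i, rfl⟩ := Finset.card_eq_one.1 hs.symm
      exact ⟨i, rfl⟩
    · rintro ⟨i, rfl⟩
      simp
  rw [h4, Finset.sum_image (fun i _ i' _ h => by simpa using h)] at h3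
  simpa [Finset.piecewise_singleton] using h3

variable {W : Type u} [AddCommGroup W] [Module ℚ W]

/-- Exchange of arguments. -/
def e2_flip {n : ℕ} (f : U →ₗ[ℚ] MultilinearMap ℚ (fun _ : Fin n => U) W) :
    MultilinearMap ℚ (fun _ : Fin n => U) (U →ₗ[ℚ] W) where
  toFun z :=
    { toFun := fun w => f w z
      map_add' := by intros; simp
      map_smul' := by intros; simp }
  map_update_add' := by intros; ext; simp
  map_update_smul' := by intros; ext; simp

/-- Exchange of arguments. -/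
def e2_flop {n : ℕ} (C : MultilinearMap ℚ (fun _ : Fin n => U) (U →ₗ[ℚ] W)) :
    U →ₗ[ℚ] MultilinearMap ℚ (fun _ : Fin n => U) W where
  toFun x := (LinearMap.applyₗ x).compMultilinearMap C
  map_add' := by intros; ext; simp
  map_smul' := by intros; ext; simp

variable {q j : ℕ}

/-- The alternating sum `∑ (-1)^i L(v_i; z)(v without v_i)`. -/
def e2_G (L : MultilinearMap ℚ (fun _ : Fin (q + 3) => U) (U [⋀^Fin j]→ₗ[ℚ] ℚ)) :
    MultilinearMap ℚ (fun _ : Fin (q + 2) => U) (U [⋀^Fin (j + 1)]→ₗ[ℚ] ℚ) :=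
  AlternatingMap.alternatizeUncurryFinLM.compMultilinearMap (e2_flip L.curryLeft)

theorem e2_G_apply (L : MultilinearMap ℚ (fun _ : Fin (q + 3) => U) (U [⋀^Fin j]→ₗ[ℚ] ℚ))
    (z : Fin (q + 2) → U) (v : Fin (j + 1) → U) :
    e2_G L z v = ∑ i : Fin (j + 1), (-1) ^ (i : ℕ) *
      L (Fin.cons (v i) z) (Fin.removeNth i v) := by
  simp only [e2_G, LinearMap.compMultilinearMap_apply,
    AlternatingMap.alternatizeUncurryFinLM_apply, AlternatingMap.alternatizeUncurryFin_apply]
  refine Finset.sum_congr rfl fun i _ => ?_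
  rw [zsmul_eq_mul]
  push_cast
  rfl

/-- Antisymmetrisation in the first variable and the alternating ones. -/
def e2_A (L : MultilinearMap ℚ (fun _ : Fin (q + 3) => U) (U [⋀^Fin j]→ₗ[ℚ] ℚ)) :
    MultilinearMap ℚ (fun _ : Fin (q + 3) => U) (U [⋀^Fin j]→ₗ[ℚ] ℚ) :=
  (e2_flop (AlternatingMap.curryLeftLinearMap.compMultilinearMap (e2_G L))).uncurryLeft

theorem e2_A_apply (L : MultilinearMap ℚ (fun _ : Fin (q + 3) => U) (U [⋀^Fin j]→ₗ[ℚ] ℚ))
    (z : Fin (q + 3) → U) (v : Fin j → U) :
    e2_A L z v = e2_G L (Fin.tail z) (Fin.cons (z 0) v) := rfl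

/-- The raw contraction. -/
def e2_M (L : MultilinearMap ℚ (fun _ : Fin (q + 3) => U) (U [⋀^Fin j]→ₗ[ℚ] ℚ)) :
    MultilinearMap ℚ (fun _ : Fin (q + 2) => U) (U [⋀^Fin (j + 1)]→ₗ[ℚ] ℚ) :=
  AlternatingMap.alternatizeUncurryFinLM.compMultilinearMap L.curryRight +
    ((q : ℚ) + 2)⁻¹ • e2_G L

theorem e2_M_apply (L : MultilinearMap ℚ (fun _ : Fin (q + 3) => U) (U [⋀^Fin j]→ₗ[ℚ] ℚ))
    (z : Fin (q + 2) → U) (v : Fin (j + 1) → U) :
    e2_M L z v = ∑ i : Fin (j + 1), (-1) ^ (i : ℕ) *
      (L (Fin.snoc z (v i)) (Fin.removeNth i v) +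
        ((q : ℚ) + 2)⁻¹ * L (Fin.cons (v i) z) (Fin.removeNth i v)) := by
  have h1 : e2_M L z v = AlternatingMap.alternatizeUncurryFin (L.curryRight z) v +
      ((q : ℚ) + 2)⁻¹ * e2_G L z v := rfl
  rw [h1, e2_G_apply, AlternatingMap.alternatizeUncurryFin_apply, Finset.mul_sum,
    ← Finset.sum_add_distrib]
  refine Finset.sum_congr rfl fun i _ => ?_
  rw [zsmul_eq_mul, MultilinearMap.curryRight_apply]
  push_cast
  ring

/-- The hypotheses on the form. -/
structure E2P (L : MultilinearMap ℚ (fun _ : Fin (q + 3) => U) (U [⋀^Fin j]→ₗ[ℚ] ℚ)) :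
    Prop where
  symm : ∀ σ : Equiv.Perm (Fin (q + 3)), σ 0 = 0 → ∀ x, L (x ∘ σ) = L x
  diag : ∀ x, L (fun _ => x) = 0
  sc : ∀ x y (v : Fin j → U), (∃ i, v i = y) → L (Fin.cons x fun _ => y) v = 0

variable {L : MultilinearMap ℚ (fun _ : Fin (q + 3) => U) (U [⋀^Fin j]→ₗ[ℚ] ℚ)}

theorem E2P.comb {L' : MultilinearMap ℚ (fun _ : Fin (q + 3) => U) (U [⋀^Fin j]→ₗ[ℚ] ℚ)}
    (h : E2P L) (h' : E2P L') (a c : ℚ) : E2P (a • L + c • L') := by
  refine ⟨fun σ hσ x => ?_, fun x => ?_, fun x y v hv => ?_⟩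
  · simp only [_root_.add_apply, _root_.smul_apply, h.symm σ hσ, h'.symm σ hσ]
  · simp only [_root_.add_apply, _root_.smul_apply, h.diag, h'.diag, smul_zero,
      add_zero]
  · simp only [_root_.add_apply, _root_.smul_apply, AlternatingMap.add_apply,
      AlternatingMap.smul_apply, h.sc x y v hv, h'.sc x y v hv, smul_zero, add_zero]

theorem e2_cons_const {n : ℕ} (y : U) :
    (Fin.cons y fun _ : Fin n => y : Fin (n + 1) → U) = fun _ => y := by
  funext i
  refine Fin.cases ?_ (fun i => ?_) i <;> simp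

/-- Extension of a permutation. -/
theorem e2_cons_comp {n : ℕ} (x : U) (z : Fin n → U) (τ : Equiv.Perm (Fin n)) :
    (Fin.cons x (z ∘ τ) : Fin (n + 1) → U) = Fin.cons x z ∘ (Equiv.Perm.decomposeFin.symm (0, τ)) := by
  funext i
  refine Fin.cases ?_ (fun i => ?_) i
  · simp
  · simp

theorem E2P.symm' (h : E2P L) (x : U) (z : Fin (q + 2) → U) (τ : Equiv.Perm (Fin (q + 2))) :
    L (Fin.cons x (z ∘ τ)) = L (Fin.cons x z) := by
  rw [e2_cons_comp]
  exact h.symm _ (by simp) _

theorem E2P.G_symm (h : E2P L) (z : Fin (q + 2) → U) (τ : Equiv.Perm (Fin (q + 2))) :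
    e2_G L (z ∘ τ) = e2_G L z := by
  ext v
  rw [e2_G_apply, e2_G_apply]
  refine Finset.sum_congr rfl fun i _ => ?_
  rw [h.symm']

theorem E2P.G_zero (h : E2P L) (y : U) (v : Fin (j + 1) → U) (hv : ∃ i, v i = y) :
    e2_G L (fun _ => y) v = 0 := by
  rw [e2_G_apply]
  refine Finset.sum_eq_zero fun l _ => ?_
  obtain ⟨i, hi⟩ := hv
  by_cases hl : l = i
  · subst hl
    rw [hi, e2_cons_const, h.diag]
    simp
  · obtain ⟨m, hm⟩ := Fin.exists_succAbove_eq (Ne.symm hl)
    rw [h.sc _ _ _ ⟨m, by rw [Fin.removeNth_apply, hm, hi]⟩, mul_zero]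

theorem E2P.A (h : E2P L) : E2P (e2_A L) := by
  refine ⟨fun σ hσ x => ?_, fun x => ?_, fun x y v hv => ?_⟩
  · ext v
    rw [e2_A_apply, e2_A_apply]
    obtain ⟨⟨a, τ⟩, rfl⟩ := Equiv.Perm.decomposeFin.symm.surjective σ
    have ha : a = 0 := by simpa using hσ
    subst ha
    have h1 : Fin.tail (x ∘ (Equiv.Perm.decomposeFin.symm (0, τ))) = Fin.tail x ∘ τ := by
      funext i
      simp [Fin.tail]
    rw [h1, h.G_symm]
    simp
  · ext v
    rw [e2_A_apply]
    exact h.G_zero x _ ⟨0, rfl⟩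
  · rw [e2_A_apply]
    obtain ⟨i, hi⟩ := hv
    exact h.G_zero y _ ⟨i.succ, by simpa using hi⟩

/-- Moving a variable. -/
theorem E2P.move (h : E2P L) (a x y : U) (i i' : Fin (q + 2)) :
    L (Fin.cons a (Function.update (fun _ => y) i x)) =
      L (Fin.cons a (Function.update (fun _ => y) i' x)) := by
  rw [← h.symm' a _ (Equiv.swap i' i)]
  congr 2
  funext l
  simp only [Function.comp, Function.update_apply]
  by_cases hl : l = i'
  · subst hl; simp
  · by_cases hl2 : l = i
    · subst hl2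
      rw [Equiv.swap_apply_right]
      simp [hl, Ne.symm hl]
    · rw [Equiv.swap_apply_of_ne_of_ne hl hl2]
      simp [hl, hl2]

theorem e2_update_zero {n : ℕ} (x y : U) :
    (Function.update (fun _ : Fin (n + 1) => y) 0 x) = Fin.cons x fun _ => y := by
  funext l
  refine Fin.cases ?_ (fun i => ?_) l <;> simp

theorem e2_update_last {n : ℕ} (x y : U) :
    (Function.update (fun _ : Fin (n + 1) => y) (Fin.last n) x) =
      Fin.snoc (α := fun _ => U) (fun _ => y) x := by
  funext l
  refine Fin.lastCases ?_ (fun i => ?_) l <;> simp [Fin.castSucc_ne_last]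

/-- Evaluation. -/
def e2_ev {j : ℕ} (v : Fin j → U) : (U [⋀^Fin j]→ₗ[ℚ] ℚ) →ₗ[ℚ] ℚ where
  toFun f := f v
  map_add' _ _ := rfl
  map_smul' _ _ := rfl

/-- Evaluation of all variables but the first. -/
def e2_evc {j : ℕ} (v : Fin j → U) : (U [⋀^Fin (j + 1)]→ₗ[ℚ] ℚ) →ₗ[ℚ] (U →ₗ[ℚ] ℚ) where
  toFun f :=
    { toFun := fun w => f (Fin.cons w v)
      map_add' := fun a b => by
        have h := f.map_update_add (Fin.cons a v : Fin (j + 1) → U) 0 a b
        simpa using h
      map_smul' := fun c a => by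
        have h := f.map_update_smul (Fin.cons a v : Fin (j + 1) → U) 0 c a
        simpa using h }
  map_add' _ _ := rfl
  map_smul' _ _ := rfl

/-- The polarised diagonal relation. -/
theorem E2P.D (h : E2P L) (x y : U) (v : Fin j → U) :
    L (Fin.cons x fun _ => y) v + ((q : ℚ) + 2) * L (Fin.cons y (Fin.cons x fun _ => y)) v = 0 := by
  have h1 := e2_polar ((e2_ev v).compMultilinearMap L)
    (fun x => by
      change L (fun _ => x) v = 0
      rw [h.diag]
      rfl) x y
  rw [Fin.sum_univ_succ] at h1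
  have h2 : ∀ i : Fin (q + 2), ((e2_ev v).compMultilinearMap L)
      (Function.update (fun _ => y) i.succ x) = L (Fin.cons y (Fin.cons x fun _ => y)) v := by
    intro i
    change L (Function.update (fun _ => y) i.succ x) v = _
    have h3 : (Function.update (fun _ => y) i.succ x : Fin (q + 3) → U) =
        Fin.cons y (Function.update (fun _ => y) i x) := by
      rw [← e2_cons_const (n := q + 2) y, Fin.cons_update]
    rw [h3, h.move y x y i 0, e2_update_zero]
  rw [Finset.sum_congr rfl fun i _ => h2 i, Finset.sum_const, e2_update_zero] at h1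
  simpa [e2_ev] using h1

/-- The polarised vanishing relation. -/
theorem E2P.C {j : ℕ}
    {L : MultilinearMap ℚ (fun _ : Fin (q + 3) => U) (U [⋀^Fin (j + 1)]→ₗ[ℚ] ℚ)}
    (h : E2P L) (a x y : U) (v : Fin j → U) (l : Fin (q + 2)) :
    L (Fin.cons a fun _ => y) (Fin.cons x v) +
      ((q : ℚ) + 2) * L (Fin.cons a (Function.update (fun _ => y) l x)) (Fin.cons y v) = 0 := by
  have h1 := e2_polar (((e2_evc v).compMultilinearMap (L.curryLeft a)).uncurryRight)
    (fun x => by
      change L (Fin.cons a fun _ => x) (Fin.cons x v) = 0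
      exact h.sc a x _ ⟨0, rfl⟩) x y
  rw [Fin.sum_univ_castSucc] at h1
  have h2 : ∀ i : Fin (q + 2), ((e2_evc v).compMultilinearMap (L.curryLeft a)).uncurryRight
      (Function.update (fun _ => y) i.castSucc x) =
        L (Fin.cons a (Function.update (fun _ => y) l x)) (Fin.cons y v) := by
    intro i
    rw [MultilinearMap.uncurryRight_apply, Fin.init_update_castSucc,
      Function.update_of_ne (by exact (Fin.castSucc_lt_last i).ne')]
    change L (Fin.cons a (Function.update (fun _ => y) i x)) (Fin.cons y v) = _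
    rw [h.move a x y i l]
  rw [Finset.sum_congr rfl fun i _ => h2 i, Finset.sum_const, MultilinearMap.uncurryRight_apply,
    Fin.init_update_last] at h1
  have h3 : ((e2_evc v).compMultilinearMap (L.curryLeft a)) (Fin.init fun _ => y)
      ((Function.update (fun _ => y) (Fin.last (q + 2)) x : Fin (q + 3) → U) (Fin.last _)) =
      L (Fin.cons a fun _ => y) (Fin.cons x v) := by
    rw [Function.update_self]
    rfl
  rw [h3] at h1
  rw [add_comm]
  simpa using h1

/-- The double antisymmetrisation. -/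
theorem e2_GA (L : MultilinearMap ℚ (fun _ : Fin (q + 3) => U) (U [⋀^Fin j]→ₗ[ℚ] ℚ))
    (y : Fin (q + 2) → U) (u : Fin (j + 1) → U) :
    e2_G (e2_A L) y u = ((j : ℚ) + 1) * e2_G L y u := by
  have h2 : e2_G (e2_A L) y u =
      AlternatingMap.alternatizeUncurryFin (AlternatingMap.curryLeft (e2_G L y)) u := by
    rw [e2_G_apply, AlternatingMap.alternatizeUncurryFin_apply]
    refine Finset.sum_congr rfl fun i _ => ?_
    rw [zsmul_eq_mul, e2_A_apply, Fin.tail_cons]
    push_cast
    rfl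
  rw [h2, AlternatingMap.alternatizeUncurryFin_curryLeft]
  rw [← Nat.cast_succ, AlternatingMap.smul_apply, nsmul_eq_mul]

theorem e2_G_comb (L L' : MultilinearMap ℚ (fun _ : Fin (q + 3) => U) (U [⋀^Fin j]→ₗ[ℚ] ℚ))
    (a c : ℚ) (y : Fin (q + 2) → U) (u : Fin (j + 1) → U) :
    e2_G (a • L + c • L') y u = a * e2_G L y u + c * e2_G L' y u := by
  rw [e2_G_apply, e2_G_apply, e2_G_apply, Finset.mul_sum, Finset.mul_sum,
    ← Finset.sum_add_distrib]
  refine Finset.sum_congr rfl fun i _ => ?_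
  change (-1) ^ (i : ℕ) * (a * L _ _ + c * L' _ _) = _
  ring

theorem e2_removeNth {j : ℕ} (y : U) (v : Fin (j + 1) → U) (l : Fin (j + 1)) :
    Fin.removeNth l.succ (Fin.cons y v : Fin (j + 2) → U) = Fin.cons y (Fin.removeNth l v) := by
  funext m
  refine Fin.cases ?_ (fun m => ?_) m
  · simp [Fin.removeNth_apply]
  · simp [Fin.removeNth_apply]

theorem e2_removeNth_zero {j : ℕ} (y : U) (v : Fin j → U) :
    Fin.removeNth 0 (Fin.cons y v : Fin (j + 1) → U) = v := by
  funext m
  simp [Fin.removeNth_apply]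

theorem e2_front {j : ℕ} (f : U [⋀^Fin (j + 1)]→ₗ[ℚ] ℚ) (v : Fin (j + 1) → U)
    (l : Fin (j + 1)) : f (Fin.cons (v l) (Fin.removeNth l v)) = (-1) ^ (l : ℕ) * f v := by
  have h := AlternatingMap.neg_one_pow_smul_map_insertNth f l (v l) (Fin.removeNth l v)
  rw [Fin.insertNth_self_removeNth, zsmul_eq_mul] at h
  push_cast at h
  exact h.symm

/-- The main computation. -/
theorem E2P.eval (h : E2P L) (x y : U) (v : Fin j → U) :
    e2_M L (Fin.cons x fun _ => y) (Fin.cons y v) =
      (1 + (j : ℚ) / ((q : ℚ) + 2)) * L (Fin.cons x fun _ => y) v -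
        1 / ((q : ℚ) + 2) ^ 2 * e2_A L (Fin.cons x fun _ => y) v := by
  have hq : ((q : ℚ) + 2) ≠ 0 := by positivity
  have hD := h.D x y v
  have hD' : L (Fin.cons y (Fin.cons x fun _ => y)) v =
      - (1 / ((q : ℚ) + 2)) * L (Fin.cons x fun _ => y) v := by
    field_simp
    linarith
  have hsn : ∀ w : U, (Fin.snoc (α := fun _ => U)
      (Fin.cons x fun _ : Fin (q + 1) => y : Fin (q + 2) → U) w : Fin (q + 3) → U) =
      Fin.cons x (Function.update (fun _ => y) (Fin.last (q + 1)) w) := by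
    intro w
    rw [e2_update_last]
    exact (Fin.cons_snoc_eq_snoc_cons _ _ _).symm
  rw [e2_M_apply, e2_A_apply, e2_G_apply, Fin.tail_cons, Fin.sum_univ_succ, Fin.sum_univ_succ]
  simp only [Fin.cons_zero, Fin.val_zero, pow_zero, one_mul, e2_removeNth_zero, hsn,
    Fin.cons_succ]
  have hupd : (Function.update (fun _ : Fin (q + 2) => y) (Fin.last (q + 1)) y) = fun _ => y := by
    simp
  rw [hupd, hD']
  have hterm : ∀ l : Fin j, (-1 : ℚ) ^ (l.succ : ℕ) *
      (L (Fin.cons x (Function.update (fun _ => y) (Fin.last (q + 1)) (v l)))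
        (Fin.removeNth l.succ (Fin.cons y v : Fin (j + 1) → U)) +
        ((q : ℚ) + 2)⁻¹ * L (Fin.cons (v l) (Fin.cons x fun _ => y))
          (Fin.removeNth l.succ (Fin.cons y v : Fin (j + 1) → U))) =
      1 / ((q : ℚ) + 2) * L (Fin.cons x fun _ => y) v +
        (-(1 / ((q : ℚ) + 2) ^ 2)) * ((-1) ^ (l.succ : ℕ) * L (Fin.cons (v l) fun _ => y)
          (Fin.removeNth l.succ (Fin.cons x v : Fin (j + 1) → U))) := by
    intro l
    rcases j with _ | j
    · exact l.elim0
    · rw [e2_removeNth, e2_removeNth]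
      have h1 := h.C x (v l) y (Fin.removeNth l v) (Fin.last (q + 1))
      have h2 := h.C (v l) x y (Fin.removeNth l v) 0
      rw [e2_front] at h1
      rw [e2_update_zero] at h2
      have h1' : L (Fin.cons x (Function.update (fun _ => y) (Fin.last (q + 1)) (v l)))
          (Fin.cons y (Fin.removeNth l v)) =
          -(1 / ((q : ℚ) + 2)) * ((-1) ^ (l : ℕ) * L (Fin.cons x fun _ => y) v) := by
        field_simp
        linarith
      have h2' : L (Fin.cons (v l) (Fin.cons x fun _ => y)) (Fin.cons y (Fin.removeNth l v)) =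
          -(1 / ((q : ℚ) + 2)) * L (Fin.cons (v l) fun _ => y)
            (Fin.cons x (Fin.removeNth l v)) := by
        field_simp
        linarith
      rw [h1', h2']
      have h3 : (-1 : ℚ) ^ (l.succ : ℕ) * (-1) ^ (l : ℕ) = -1 := by
        rw [Fin.val_succ, ← pow_add]
        exact Odd.neg_one_pow ⟨(l : ℕ), by ring⟩
      have h4 : (-1 : ℚ) ^ (l.succ : ℕ) * (-(1 / ((q : ℚ) + 2)) * ((-1) ^ (l : ℕ) *
          L (Fin.cons x fun _ => y) v)) = 1 / ((q : ℚ) + 2) * L (Fin.cons x fun _ => y) v := by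
        linear_combination (-(1 / ((q : ℚ) + 2)) * L (Fin.cons x fun _ => y) v) * h3
      rw [mul_add, h4]
      generalize L (Fin.cons (v l) fun _ => y) (Fin.cons x (Fin.removeNth l v)) = t1
      generalize L (Fin.cons x fun _ => y) v = t2
      field_simp
  rw [Finset.sum_congr rfl fun l _ => hterm l, Finset.sum_add_distrib,
    ← Finset.mul_sum _ _ (-(1 / ((q : ℚ) + 2) ^ 2)), Finset.sum_const, Finset.card_univ, Fintype.card_fin, nsmul_eq_mul]
  generalize ∑ l : Fin j, (-1 : ℚ) ^ (l.succ : ℕ) * L (Fin.cons (v l) fun _ => y)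
    (Fin.removeNth l.succ (Fin.cons x v : Fin (j + 1) → U)) = t1
  generalize L (Fin.cons x fun _ => y) v = t2
  field_simp
  ring

end E2

section

variable {U : Type u} [AddCommGroup U] [Module ℚ U]

theorem contraction (q j : ℕ)
    (M : MultilinearMap ℚ (fun _ : Fin (q + 3) => U) (U [⋀^Fin j]→ₗ[ℚ] ℚ))
    (hM : Adm (q := q + 1) M)
    (hSC : ∀ x y (v : Fin j → U), (∃ i, v i = y) → M (Fin.cons x fun _ => y) v = 0) :
    ∃ M' : MultilinearMap ℚ (fun _ : Fin (q + 2) => U) (U [⋀^Fin (j + 1)]→ₗ[ℚ] ℚ),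
      Adm M' ∧ ∀ x y (v : Fin j → U),
        M' (Fin.cons x fun _ => y) (Fin.cons y v) = M (Fin.cons x fun _ => y) v := by
  have hP : E2P M := ⟨hM.symm, hM.diag, hSC⟩
  have hq : ((q : ℚ) + 2) ≠ 0 := by positivity
  set K : ℚ := (q : ℚ) + 2 with hK
  have he1 : (1 + (j : ℚ) / K) ≠ 0 := by positivity
  have he2 : ((K - 1) * (K + 1 + j)) ≠ 0 := by
    have : (0 : ℚ) < K - 1 := by rw [hK]; have : (0 : ℚ) ≤ q := by positivity
                                 linarith
    positivity
  set a : ℚ := (1 + (j : ℚ) / K)⁻¹ with ha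
  set c : ℚ := a / ((K - 1) * (K + 1 + j)) with hc
  set L := a • M + c • e2_A M with hL
  have hLP : E2P L := hP.comb hP.A a c
  have hK0 : (0 : ℚ) < K := by positivity
  have hj0 : (0 : ℚ) ≤ (j : ℚ) := by positivity
  refine ⟨e2_M L, ⟨fun σ hσ x => ?_, fun x => ?_⟩, fun x y v => ?_⟩
  · ext v
    rw [e2_M_apply, e2_M_apply]
    refine Finset.sum_congr rfl fun i _ => ?_
    have h1 : (Fin.snoc (α := fun _ => U) (x ∘ σ) (v i) : Fin (q + 3) → U) =
        Fin.snoc (α := fun _ => U) x (v i) ∘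
          ((finSuccEquivLast.trans (Equiv.optionCongr σ)).trans finSuccEquivLast.symm) := by
      funext l
      refine Fin.lastCases ?_ (fun l => ?_) l
      · simp
      · simp
    have h2 : ((finSuccEquivLast.trans (Equiv.optionCongr σ)).trans
        finSuccEquivLast.symm) (0 : Fin (q + 3)) = 0 := by
      have h3 : finSuccEquivLast (0 : Fin (q + 3)) = some (0 : Fin (q + 2)) :=
        finSuccEquivLast_castSucc (0 : Fin (q + 2))
      rw [Equiv.trans_apply, Equiv.trans_apply, h3]
      simp [hσ]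
    rw [h1, hLP.symm _ h2, hLP.symm']
  · ext v
    rw [e2_M_apply]
    refine Finset.sum_eq_zero fun i _ => ?_
    have h1 := hLP.D (v i) x (Fin.removeNth i v)
    have h2 : (Fin.snoc (α := fun _ => U) (fun _ : Fin (q + 2) => x) (v i) : Fin (q + 3) → U) =
        Fin.cons x (Fin.snoc (α := fun _ => U) (fun _ : Fin (q + 1) => x) (v i)) := by
      rw [Fin.cons_snoc_eq_snoc_cons, e2_cons_const]
    rw [h2, ← e2_update_last, hLP.move x (v i) x (Fin.last (q + 1)) 0, e2_update_zero]
    rw [← hK] at h1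
    have h3 : L (Fin.cons x (Fin.cons (v i) fun _ => x)) (Fin.removeNth i v) +
        K⁻¹ * L (Fin.cons (v i) fun _ => x) (Fin.removeNth i v) = 0 := by
      field_simp
      linarith
    rw [h3, mul_zero]
  · rw [hLP.eval]
    have hG : ∀ y u, e2_G L y u = (a + c * (j + 1)) * e2_G M y u := by
      intro y u
      have h1 : ∀ y : Fin (q + 2) → U, ∀ u : Fin (j + 1) → U,
          e2_G (e2_A M) y u = ((j : ℚ) + 1) * e2_G M y u := e2_GA M
      rw [hL, e2_G_comb, h1]
      ring
    have hLv : L (Fin.cons x fun _ => y) v = a * M (Fin.cons x fun _ => y) v +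
        c * e2_A M (Fin.cons x fun _ => y) v := rfl
    have hA : e2_A L (Fin.cons x fun _ => y) v =
        (a + c * (j + 1)) * e2_A M (Fin.cons x fun _ => y) v := by
      rw [e2_A_apply, hG]
      rfl
    rw [hA, hLv, ← hK]
    have h1 : (1 + (j : ℚ) / K) * a = 1 := mul_inv_cancel₀ he1
    have h2 : (1 + (j : ℚ) / K) * c = 1 / K ^ 2 * (a + c * (j + 1)) := by
      have : c * ((K - 1) * (K + 1 + j)) = a := div_mul_cancel₀ _ he2
      rw [← this]
      field_simp
      ring
    linear_combination M (Fin.cons x fun _ => y) v * h1 +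
      e2_A M (Fin.cons x fun _ => y) v * h2

end

end

end PL
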