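import Pool.Agent.Helper91.PL.SBasic
import Pool.Agent.Helper91.PL.S8
import Pool.Agent.Helper91.PL.S9

/-!
# MP_bae8ce_ag, module S10 : the relation with a main term
-/

set_option autoImplicit false
set_option linter.unusedSectionVars false

open Finset

namespace PL

noncomputable section

section lin

variable {N : ℕ} {p : ℕ} [Fact p.Prime]

/-- A combination of the rows of a block matrix which vanishes on a union `C` of blocks involves
no row supported in `C`. -/
theorem s10_restrict (π : Fin N → Fin N → Bool)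
    (g ginv : Matrix (Fin N) (Fin N) (ZMod p)) (hg : g * ginv = 1) (b : Fin N → Fin N)
    (hb : ∀ i j, g i j ≠ 0 → π (b i) j = true)
    (C : Fin N → Prop) (hC : ∀ i j, π i j = true → (C i ↔ C j))
    (y : Fin N → ZMod p) (hy : ∀ j, C j → ∑ i, y i * g i j = 0) :
    ∀ i, C (b i) → y i = 0 := by
  classical
  set y' : Fin N → ZMod p := fun i => if C (b i) then y i else 0 with hy'
  have h1 : Matrix.vecMul y' g = 0 := by
    funext j
    simp only [Matrix.vecMul, dotProduct, Pi.zero_apply]
    by_cases hj : C j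
    · rw [← hy j hj]
      refine Finset.sum_congr rfl fun i _ => ?_
      by_cases hi : C (b i)
      · simp only [hy', if_pos hi]
      · have h2 : g i j = 0 := by
          by_contra h2
          exact hi ((hC _ _ (hb i j h2)).2 hj)
        rw [h2, mul_zero, mul_zero]
    · refine Finset.sum_eq_zero fun i _ => ?_
      by_cases hi : C (b i)
      · have h2 : g i j = 0 := by
          by_contra h2
          exact hj ((hC _ _ (hb i j h2)).1 hi)
        rw [h2, mul_zero]
      · simp only [hy', if_neg hi, zero_mul]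
  have h2 : y' = 0 := by
    rw [← Matrix.vecMul_one y', ← hg, ← Matrix.vecMul_vecMul, h1, Matrix.zero_vecMul]
  intro i hi
  have h3 := congrFun h2 i
  simpa only [hy', if_pos hi, Pi.zero_apply] using h3

/-- The permutation attached to an invertible block matrix. -/
theorem s10_perm (π : Fin N → Fin N → Bool)
    (g ginv : Matrix (Fin N) (Fin N) (ZMod p)) (hg : g * ginv = 1) (b : Fin N → Fin N)
    (hb : ∀ i j, g i j ≠ 0 → π (b i) j = true) :
    ∃ τ : Equiv.Perm (Fin N), ∀ i, π (b i) (τ i) = true := by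
  have hdet : g.det ≠ 0 := by
    intro h
    have h2 := congrArg Matrix.det hg
    rw [Matrix.det_mul, h, zero_mul, Matrix.det_one] at h2
    exact zero_ne_one h2
  rw [Matrix.det_apply] at hdet
  obtain ⟨σ, -, hσ⟩ := Finset.exists_ne_zero_of_sum_ne_zero hdet
  have h3 : ∀ i, g (σ i) i ≠ 0 := by
    intro i hi
    apply hσ
    have h5 : ∏ i, g (σ i) i = 0 := Finset.prod_eq_zero (Finset.mem_univ i) hi
    exact (congrArg (fun z => Equiv.Perm.sign σ • z) h5).trans (smul_zero _)
  refine ⟨σ.symm, fun i => ?_⟩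
  have h4 := hb _ _ (h3 (σ.symm i))
  rwa [Equiv.apply_symm_apply] at h4

end lin

/-- The combinatorics of the main term. -/
theorem s10_bp (p : ℕ) [Fact p.Prime] (r : ℕ) (π : Fin (r + 2) → Fin (r + 2) → Bool)
    (hπ : Equivalence fun i j => π i j = true) (ε : Fin (r + 2) → Bool)
    (a : Fin (r + 2) → Fin r → ZMod p)
    (g ginv H : Matrix (Fin (r + 2)) (Fin (r + 2)) (ZMod p)) (hg : g * ginv = 1)
    (hGH : (GM ε a).transpose * g = H)
    (hH0 : H 0 = fun j => if j = 0 then 1 else 0)
    (hH1 : H 1 = fun j => if j = 0 ∨ π 0 j = false then 1 else 0) (hbp : BP π g) :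
    ∃ τ : Equiv.Perm (Fin (r + 2)), τ 0 = 0 ∧ (∀ i j, g i j ≠ 0 → π (τ i) j = true) ∧
      ∀ i, ε i = π 0 (τ i) := by
  classical
  choose b hb using hbp
  have hC : ∀ i j, π i j = true → (π 0 i = true ↔ π 0 j = true) := fun i j h =>
    ⟨fun h1 => hπ.trans h1 h, fun h1 => hπ.trans h1 (hπ.symm h)⟩
  have e0 : ∀ j, ∑ i, (if i = 0 ∨ ε i = true then (1 : ZMod p) else 0) * g i j =
      if j = 0 then 1 else 0 := by
    intro j
    have h := congrFun (congrFun hGH 0) j
    rw [hH0, Matrix.mul_apply] at h
    refine Eq.trans (Finset.sum_congr rfl fun i _ => ?_) h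
    simp only [Matrix.transpose_apply, GM, Fin.cons_zero]
  have e1 : ∀ j, ∑ i, (if i ≠ 0 ∨ ε i = true then (1 : ZMod p) else 0) * g i j =
      if j = 0 ∨ π 0 j = false then 1 else 0 := by
    intro j
    have h := congrFun (congrFun hGH 1) j
    rw [hH1, Matrix.mul_apply] at h
    refine Eq.trans (Finset.sum_congr rfl fun i _ => ?_) h
    have h1 : (1 : Fin (r + 2)) = Fin.succ 0 := rfl
    simp only [Matrix.transpose_apply, GM]
    rw [h1, Fin.cons_succ, Fin.cons_zero]
  -- claim 1
  have c1 := s10_restrict π g ginv hg b hb (fun j => ¬ π 0 j = true)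
    (fun i j h => not_congr (hC i j h))
    (fun i => if i = 0 ∨ ε i = true then (1 : ZMod p) else 0) (by
      intro j hj
      rw [e0 j]
      have : j ≠ 0 := by
        rintro rfl
        exact hj (hπ.refl 0)
      rw [if_neg this])
  have c2 := s10_restrict π g ginv hg b hb (fun j => π 0 j = true) hC
    (fun i => (if i ≠ 0 ∨ ε i = true then (1 : ZMod p) else 0) -
      (if i = 0 ∨ ε i = true then (1 : ZMod p) else 0)) (by
      intro j hj
      simp only [sub_mul, Finset.sum_sub_distrib]
      rw [e0 j, e1 j]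
      by_cases h : j = 0
      · simp [h]
      · simp [h, hj])
  have hb0 : π 0 (b 0) = true := by
    by_contra h
    have := c1 0 h
    simp at this
  have hε : ∀ i, ε i = π 0 (b i) := by
    intro i
    by_cases h : π 0 (b i) = true
    · rw [h]
      have h2 := c2 i h
      by_contra h3
      by_cases hi : i = 0
      · subst hi
        simp [h3] at h2
      · simp [hi, h3] at h2
    · have h2 := c1 i h
      have h4 : π 0 (b i) = false := by simpa using h
      rw [h4]
      by_contra h3
      have h5 : ε i = true := by simpa using h3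
      simp [h5] at h2
  obtain ⟨τ, hτ⟩ := s10_perm π g ginv hg b hb
  have h0τ : π 0 (τ 0) = true := hπ.trans hb0 (hτ 0)
  have key : ∀ i, π (b i) ((τ.trans (Equiv.swap (τ 0) 0)) i) = true := by
    intro i
    rw [Equiv.trans_apply]
    by_cases h1 : τ i = τ 0
    · rw [h1, Equiv.swap_apply_left]
      have h2 := hτ i
      rw [h1] at h2
      exact hπ.trans h2 (hπ.symm h0τ)
    · by_cases h2 : τ i = 0
      · rw [h2, Equiv.swap_apply_right]
        have h3 := hτ i
        rw [h2] at h3
        exact hπ.trans h3 h0τ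
      · rw [Equiv.swap_apply_of_ne_of_ne h1 h2]
        exact hτ i
  refine ⟨τ.trans (Equiv.swap (τ 0) 0), ?_, fun i j hij => ?_, fun i => ?_⟩
  · rw [Equiv.trans_apply, Equiv.swap_apply_left]
  · exact hπ.trans (hπ.symm (key i)) (hb i j hij)
  · rw [hε i]
    rw [Bool.eq_iff_iff]
    exact hC _ _ (key i)

/-- The value of an admissible function in the block case. -/
theorem s10_value (p : ℕ) [Fact p.Prime] (r : ℕ) (k : Type) [Field k] [Fintype k] [DecidableEq k]
    [Algebra (ZMod p) k] (π : Fin (r + 2) → Fin (r + 2) → Bool)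
    (g ginv : Matrix (Fin (r + 2)) (Fin (r + 2)) (ZMod p)) (hg : g * ginv = 1)
    (τ : Equiv.Perm (Fin (r + 2))) (hτ0 : τ 0 = 0)
    (hτ : ∀ i j, g i j ≠ 0 → π (τ i) j = true)
    (Φ : Tup (r + 2) k → ℝ) (hΦ : Adm0 Φ) (χ : Tup (r + 2) k) (hχ : HasPat π χ)
    (hf : Full p χ) : Φ (act (bc g) χ) = Φ χ := by
  classical
  have h1 : ∀ i j, ∃ c : k, g i j ≠ 0 → χ j = c • χ (τ i) := by
    intro i j
    by_cases h : g i j = 0
    · exact ⟨0, fun h' => absurd h h'⟩
    · obtain ⟨c, hc⟩ := exists_smul_of_par (hχ.1 (τ i)) ((hχ.2 (τ i) j).2 (hτ i j h))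
      exact ⟨c, fun _ => hc⟩
  choose c hc using h1
  set C : Fin (r + 2) → k := fun i => ∑ j, algebraMap (ZMod p) k (g i j) * c i j with hCdef
  have h2 : ∀ i, act (bc g) χ i = C i • χ (τ i) := by
    intro i
    simp only [act, bc, Matrix.map_apply, hCdef, Finset.sum_smul]
    refine Finset.sum_congr rfl fun j _ => ?_
    by_cases h : g i j = 0
    · rw [h, map_zero, zero_smul, zero_mul, zero_smul]
    · rw [mul_smul, ← hc i j h]
  have h3 : ∀ i, C i ≠ 0 := by
    intro i hi
    have h4 := h2 i
    rw [hi, zero_smul] at h4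
    refine hf (g i) ?_ h4
    intro h5
    have h6 := congrFun (congrFun hg i) i
    rw [Matrix.mul_apply, Matrix.one_apply_eq] at h6
    simp [h5] at h6
  have h4 : act (bc g) χ = fun i => C i • (χ ∘ τ) i := funext h2
  rw [h4, hΦ.scale C h3 (χ ∘ τ), hΦ.symm τ hτ0 χ]

/-- The matrix relation. -/
theorem s10_mat (p : ℕ) [Fact p.Prime] {N : ℕ} (G H : Matrix (Fin N) (Fin N) (ZMod p))
    (hG : IsUnit G.det) (hH : IsUnit H.det) :
    G.transpose * (G⁻¹.transpose * H) = H ∧
      (G⁻¹.transpose * H) * (H⁻¹ * G.transpose) = 1 := by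
  have h1 : G.transpose * G⁻¹.transpose = 1 := by
    rw [← Matrix.transpose_mul, Matrix.nonsing_inv_mul _ hG, Matrix.transpose_one]
  have h2 : G⁻¹.transpose * G.transpose = 1 := by
    rw [← Matrix.transpose_mul, Matrix.mul_nonsing_inv _ hG, Matrix.transpose_one]
  refine ⟨by rw [← mul_assoc, h1, one_mul], ?_⟩
  rw [mul_assoc, ← mul_assoc H, Matrix.mul_nonsing_inv _ hH, one_mul, h2]

/-- There is at least one block term. -/
theorem s10_ex (p : ℕ) [Fact p.Prime] (r : ℕ) (π : Fin (r + 2) → Fin (r + 2) → Bool)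
    (hπ : Equivalence fun i j => π i j = true)
    (H : Matrix (Fin (r + 2)) (Fin (r + 2)) (ZMod p)) (hH : IsUnit H.det)
    (hH0 : H 0 = fun j => if j = 0 then 1 else 0)
    (hH1 : H 1 = fun j => if j = 0 ∨ π 0 j = false then 1 else 0) :
    ∃ (ε : Fin (r + 2) → Bool) (a : Fin (r + 2) → Fin r → ZMod p),
      IsUnit (GM ε a).det ∧ BP π ((GM ε a)⁻¹.transpose * H) := by
  classical
  -- the matrices `g` and `g'`
  set w : Fin (r + 2) → ZMod p := fun j => if j ≠ 0 ∧ π 0 j = true then 1 else 0 with hw
  set E : ZMod p → Matrix (Fin (r + 2)) (Fin (r + 2)) (ZMod p) := fun c i j =>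
    (if i = j then 1 else 0) + (if i = 0 then c * w j else 0) with hE
  have hw0 : w 0 = 0 := by simp [hw]
  have hEE : ∀ c d, E c * E d = E (c + d) := by
    intro c d
    ext i j
    rw [Matrix.mul_apply]
    have h1 : ∀ l, E c i l * E d l j = (if i = l then E d l j else 0) +
        (if l = 0 then 0 else (if l = j then (if i = 0 then c * w l else 0) else 0)) := by
      intro l
      simp only [hE]
      by_cases hl : l = 0
      · subst hl
        simp only [hw0]
        split_ifs <;> ring
      · simp only [if_neg hl]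
        split_ifs <;> ring
    rw [Finset.sum_congr rfl fun l _ => h1 l, Finset.sum_add_distrib, Finset.sum_ite_eq]
    have h2 : ∀ l : Fin (r + 2), (if l = 0 then 0 else
        (if l = j then (if i = 0 then c * w l else 0) else 0)) =
        if l = j then (if i = 0 then c * w l else 0) else 0 := by
      intro l
      by_cases hl : l = 0
      · subst hl
        simp [hw0]
      · simp [hl]
    rw [Finset.sum_congr rfl fun l _ => h2 l, Finset.sum_ite_eq']
    simp only [Finset.mem_univ, if_true, hE]
    split_ifs <;> ring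
  have hE0 : E 0 = 1 := by
    ext i j
    simp only [hE, Matrix.one_apply, zero_mul, ite_self, add_zero]
  have hinv : E 1 * E (-1) = 1 := by rw [hEE, add_neg_cancel, hE0]
  have hinv' : E (-1) * E 1 = 1 := by rw [hEE, neg_add_cancel, hE0]
  have hu : IsUnit (E 1).det := by
    apply IsUnit.of_mul_eq_one (E (-1)).det
    rw [← Matrix.det_mul, hinv, Matrix.det_one]
  -- the matrix `G`
  have hG : GM (fun i => π 0 i) (fun i l => (H * E 1) l.succ.succ i) = (H * E 1).transpose := by
    ext i m
    rw [Matrix.transpose_apply]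
    refine Fin.cases ?_ (fun m => ?_) m
    · simp only [GM, Fin.cons_zero]
      rw [Matrix.mul_apply, hH0]
      simp only [ite_mul, one_mul, zero_mul, Finset.sum_ite_eq', Finset.mem_univ, if_true, hE,
        hw]
      by_cases hi : i = 0
      · subst hi
        simp
      · have hi' : (0 : Fin (r + 2)) ≠ i := fun h => hi h.symm
        simp [hi, hi']
    · refine Fin.cases ?_ (fun m => ?_) m
      · simp only [GM]
        rw [Fin.cons_succ, Fin.cons_zero, Matrix.mul_apply]
        have h1 : (Fin.succ 0 : Fin (r + 2)) = 1 := rfl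
        rw [h1, hH1]
        have h2 : ∀ l, (if l = 0 ∨ π 0 l = false then (1 : ZMod p) else 0) * E 1 l i =
            (if l = i then (if l = 0 ∨ π 0 l = false then 1 else 0) else 0) +
            (if l = 0 then w i else 0) := by
          intro l
          simp only [hE]
          by_cases hl : l = 0
          · subst hl
            simp
          · simp only [hl, false_or, if_false, add_zero, mul_ite, mul_one, mul_zero]
        rw [Finset.sum_congr rfl fun l _ => h2 l, Finset.sum_add_distrib, Finset.sum_ite_eq',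
          Finset.sum_ite_eq']
        simp only [Finset.mem_univ, if_true, hw]
        by_cases hi : i = 0
        · subst hi
          simp [hπ.refl 0]
        · by_cases h3 : π 0 i = true <;> simp [hi, h3]
      · simp only [GM]
        rw [Fin.cons_succ, Fin.cons_succ]
  have hGu : IsUnit (H * E 1).transpose.det := by
    rw [Matrix.det_transpose, Matrix.det_mul]
    exact hH.mul hu
  refine ⟨fun i => π 0 i, fun i l => (H * E 1) l.succ.succ i, by rw [hG]; exact hGu, ?_⟩
  rw [hG]
  have h5 : ((H * E 1).transpose)⁻¹.transpose * H = E (-1) := by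
    rw [Matrix.transpose_nonsing_inv, Matrix.transpose_transpose, Matrix.mul_inv_rev, mul_assoc,
      Matrix.nonsing_inv_mul _ hH, mul_one, Matrix.inv_eq_right_inv hinv]
  rw [h5]
  intro i
  by_cases hi : i = 0
  · subst hi
    refine ⟨0, fun j hj => ?_⟩
    by_contra h
    apply hj
    have h0j : (0 : Fin (r + 2)) ≠ j := by
      rintro rfl
      exact h (hπ.refl 0)
    simp [hE, hw, h, h0j]
  · refine ⟨i, fun j hj => ?_⟩
    by_cases hij : i = j
    · subst hij
      exact hπ.refl i
    · exfalso
      apply hj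
      simp [hE, hi, hij]

theorem main_rel (p : ℕ) [Fact p.Prime] (r : ℕ) (π : Fin (r + 2) → Fin (r + 2) → Bool)
    (hπ : Equivalence fun i j => π i j = true) (h0 : ∃ j, π 0 j = false) :
    ∃ (co : Matrix (Fin (r + 2)) (Fin (r + 2)) (ZMod p) → ℝ) (M : ℝ), 1 ≤ M ∧
      (∀ g, co g ≠ 0 → (∃ ginv, g * ginv = 1) ∧ ¬ BP π g) ∧
      ∀ (k : Type) [Field k] [Fintype k] [DecidableEq k] [Algebra (ZMod p) k]
        (Φ : Tup (r + 2) k → ℝ), Adm0 Φ → Pencil p Φ → ∀ χ, HasPat π χ → Full p χ →
          M * Φ χ = ∑ g, co g * Φ (act (bc g) χ) := by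
  classical
  obtain ⟨j0, hj0⟩ := h0
  have hj00 : j0 ≠ 0 := by
    rintro rfl
    rw [hπ.refl 0] at hj0
    exact absurd hj0 (by simp)
  obtain ⟨H, hH, hH0, hH1⟩ := exists_rows p r (fun j => if j = 0 then 1 else 0)
    (fun j => if j = 0 ∨ π 0 j = false then 1 else 0) (by
      rw [LinearIndependent.pair_iff]
      intro s t hst
      have h1 := congrFun hst j0
      have h2 := congrFun hst 0
      simp only [Pi.add_apply, Pi.smul_apply, smul_eq_mul, Pi.zero_apply, hj00, hj0, if_false,
        or_true, if_true, true_or, mul_zero, zero_add, mul_one] at h1 h2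
      exact ⟨by rw [h1, add_zero] at h2; exact h2, h1⟩)
  set gg : (Fin (r + 2) → Bool) × (Fin (r + 2) → Fin r → ZMod p) →
    Matrix (Fin (r + 2)) (Fin (r + 2)) (ZMod p) := fun x => (GM x.1 x.2)⁻¹.transpose * H with hgg
  set S : Finset ((Fin (r + 2) → Bool) × (Fin (r + 2) → Fin r → ZMod p)) :=
    Finset.univ.filter fun x => IsUnit (GM x.1 x.2).det with hS
  set s0 : ℝ := ∏ j : Fin (r + 2), if π 0 j = true then -1 else 1 with hs0
  have hs02 : s0 * s0 = 1 := by
    rw [hs0, ← Finset.prod_mul_distrib]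
    refine Finset.prod_eq_one fun j _ => ?_
    split_ifs <;> norm_num
  refine ⟨fun g => -s0 * ∑ x ∈ (S.filter fun x => ¬ BP π (gg x)).filter (fun x => gg x = g),
    sg x.1, ((S.filter fun x => BP π (gg x)).card : ℝ), ?_, ?_, ?_⟩
  · obtain ⟨ε, a, h1, h2⟩ := s10_ex p r π hπ H hH hH0 hH1
    have h3 : 0 < (S.filter fun x => BP π (gg x)).card := by
      apply Finset.card_pos.2
      refine ⟨(ε, a), ?_⟩
      rw [Finset.mem_filter, hS, Finset.mem_filter]
      exact ⟨⟨Finset.mem_univ _, h1⟩, h2⟩
    exact_mod_cast h3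
  · intro g hg
    have h1 : ∑ x ∈ (S.filter fun x => ¬ BP π (gg x)).filter (fun x => gg x = g), sg x.1 ≠ 0 := by
      intro h
      apply hg
      simp only [h, mul_zero]
    obtain ⟨x, hx, -⟩ := Finset.exists_ne_zero_of_sum_ne_zero h1
    rw [Finset.mem_filter, Finset.mem_filter, hS, Finset.mem_filter] at hx
    obtain ⟨⟨⟨-, h2⟩, h3⟩, h4⟩ := hx
    rw [← h4]
    exact ⟨⟨_, (s10_mat p _ H h2 hH).2⟩, h3⟩
  · intro k _ _ _ _ Φ hΦ hP χ hχ hf
    have hζ : Full p (act (bc H) χ) := by
      intro c hc
      have h1 : ∑ j, algebraMap (ZMod p) k (c j) • act (bc H) χ j =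
          ∑ l, algebraMap (ZMod p) k (Matrix.vecMul c H l) • χ l := by
        simp only [act, bc, Matrix.map_apply, Finset.smul_sum, Matrix.vecMul, dotProduct,
          map_sum, map_mul, Finset.sum_smul, mul_smul]
        rw [Finset.sum_comm]
      rw [h1]
      apply hf
      intro h2
      apply hc
      rw [← Matrix.vecMul_one c, ← Matrix.mul_nonsing_inv H hH, ← Matrix.vecMul_vecMul, h2,
        Matrix.zero_vecMul]
    have hrel := fourier_rel p r k Φ hΦ hP (act (bc H) χ) hζ
    have hbc : ∀ A B : Matrix (Fin (r + 2)) (Fin (r + 2)) (ZMod p),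
        act (bc (k := k) A) (act (bc B) χ) = act (bc (A * B)) χ := by
      intro A B
      rw [← act_mul]
      congr 1
      unfold bc
      rw [Matrix.map_mul]
    have hrel2 : ∑ x ∈ S, sg x.1 * Φ (act (bc (gg x)) χ) = 0 := by
      rw [hS, Finset.sum_filter, Fintype.sum_prod_type]
      refine Eq.trans ?_ hrel
      refine Finset.sum_congr rfl fun ε _ => Finset.sum_congr rfl fun a _ => ?_
      simp only [hgg, hbc]
    rw [← Finset.sum_filter_add_sum_filter_not S (fun x => BP π (gg x))] at hrel2
    have hA : ∑ x ∈ S.filter (fun x => BP π (gg x)), sg x.1 * Φ (act (bc (gg x)) χ) =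
        s0 * (((S.filter fun x => BP π (gg x)).card : ℝ) * Φ χ) := by
      have h1 : ∀ x ∈ S.filter (fun x => BP π (gg x)),
          sg x.1 * Φ (act (bc (gg x)) χ) = s0 * Φ χ := by
        intro x hx
        rw [Finset.mem_filter, hS, Finset.mem_filter] at hx
        obtain ⟨⟨-, h2⟩, h3⟩ := hx
        have h4 := s10_mat p (GM x.1 x.2) H h2 hH
        obtain ⟨τ, t1, t2, t3⟩ := s10_bp p r π hπ x.1 x.2 (gg x) _ H h4.2 h4.1 hH0 hH1 h3
        rw [s10_value p r k π (gg x) _ h4.2 τ t1 t2 Φ hΦ χ hχ hf]
        congr 1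
        unfold sg
        rw [hs0, ← Equiv.prod_comp τ (fun i => if π 0 i = true then (-1 : ℝ) else 1)]
        exact Finset.prod_congr rfl fun i _ => by rw [t3 i]
      rw [Finset.sum_congr rfl h1, Finset.sum_const, nsmul_eq_mul]
      ring
    have hB : ∑ x ∈ S.filter (fun x => ¬ BP π (gg x)), sg x.1 * Φ (act (bc (gg x)) χ) =
        ∑ g, (∑ x ∈ (S.filter fun x => ¬ BP π (gg x)).filter (fun x => gg x = g), sg x.1) *
          Φ (act (bc g) χ) := by
      rw [← Finset.sum_fiberwise (S.filter fun x => ¬ BP π (gg x)) gg]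
      refine Finset.sum_congr rfl fun g _ => ?_
      rw [Finset.sum_mul]
      refine Finset.sum_congr rfl fun x hx => ?_
      rw [Finset.mem_filter] at hx
      rw [hx.2]
    rw [hA, hB] at hrel2
    have hC : ∑ g, (-s0 * ∑ x ∈ (S.filter fun x => ¬ BP π (gg x)).filter (fun x => gg x = g),
        sg x.1) * Φ (act (bc g) χ) = -s0 * ∑ g, (∑ x ∈ (S.filter fun x =>
          ¬ BP π (gg x)).filter (fun x => gg x = g), sg x.1) * Φ (act (bc g) χ) := by
      rw [Finset.mul_sum]
      exact Finset.sum_congr rfl fun g _ => by ring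
    rw [hC]
    linear_combination s0 * hrel2 - (((S.filter fun x => BP π (gg x)).card : ℝ) * Φ χ) * hs02

end

end PL
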