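import Pool.Agent.Helper91.PL.SBasic
import Pool.Agent.Helper91.PL.S2

/-!
# MP_bae8ce_ag : module S5, the double average over two tori
-/

set_option autoImplicit false
set_option linter.unusedSectionVars false

open Finset

namespace PL

noncomputable section

variable {k : Type} [Field k] [Fintype k] [DecidableEq k] {N : ℕ}

theorem s5_rk1_mul (u v : Fin N → k) (c c' : k) :
    rk1 u v c * rk1 u v c' = rk1 u v (c + c' + c * c' * ∑ l, v l * u l) := by
  ext i j
  have h2 : ∑ l, ((if i = l then (1 : k) else 0) + c * (u i * v l)) *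
      ((if l = j then 1 else 0) + c' * (u l * v j)) =
      (if i = j then 1 else 0) + c' * (u i * v j) + c * (u i * v j) +
        c * c' * (u i * v j) * ∑ l, v l * u l := by
    have h3 : ∀ l, ((if i = l then (1 : k) else 0) + c * (u i * v l)) *
      ((if l = j then 1 else 0) + c' * (u l * v j)) =
      (if i = l then ((if l = j then 1 else 0) + c' * (u l * v j)) else 0) +
      (if l = j then c * (u i * v l) else 0) +
      c * c' * (u i * v j) * (v l * u l) := by
      intro l
      split_ifs <;> ring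
    rw [Finset.sum_congr rfl fun l _ => h3 l, Finset.sum_add_distrib, Finset.sum_add_distrib,
      Finset.sum_ite_eq, Finset.sum_ite_eq', ← Finset.mul_sum]
    simp
  rw [Matrix.mul_apply]
  simp only [rk1]
  rw [h2]
  ring

theorem s5_rk1_zero (u v : Fin N → k) : rk1 u v 0 = 1 := by
  ext i j
  simp [rk1, Matrix.one_apply]

/-- the sum without the term `i` -/
theorem s5_sum_update (v : Fin N → k) (i : Fin N) (χ : Tup N k) :
    ∑ l, v l • χ l = v i • χ i + ∑ l, Function.update v i 0 l • χ l := by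
  rw [← Finset.add_sum_erase univ (fun l => v l • χ l) (mem_univ i),
    ← Finset.add_sum_erase univ (fun l => Function.update v i 0 l • χ l) (mem_univ i)]
  simp only [Function.update_self, zero_smul, zero_add]
  congr 1
  refine Finset.sum_congr rfl (fun l hl => ?_)
  rw [Function.update_of_ne (ne_of_mem_erase hl)]

theorem s5_omega (u v : Fin N → k) (huv : ∑ i, u i * v i = 1) (i : Fin N) :
    ∑ l, Function.update v i 0 l * Function.update u i 0 l = 1 - u i * v i := by
  rw [← huv, ← Finset.add_sum_erase univ (fun l => u l * v l) (mem_univ i),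
    ← Finset.add_sum_erase univ (fun l => Function.update v i 0 l * Function.update u i 0 l)
      (mem_univ i)]
  simp only [Function.update_self, zero_mul, zero_add, add_sub_cancel_left]
  refine Finset.sum_congr rfl (fun l hl => ?_)
  rw [Function.update_of_ne (ne_of_mem_erase hl), Function.update_of_ne (ne_of_mem_erase hl),
    mul_comm]

/-- the action of the product of three matrices -/
theorem s5_act_K (u v : Fin N → k) (huv : ∑ i, u i * v i = 1) (i : Fin N) {s : k} (hs : s ≠ 0)
    (t : k) (χ : Tup N k) :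
    act (rk1 u v (s - 1) * dg i t * rk1 u v (s⁻¹ - 1)) χ = fun j => χ j +
      (if j = i then (t - 1) * (1 + (s - 1) * (u i * v i)) else (t - 1) * (s - 1) * v i * u j) •
        ((1 + (s⁻¹ - 1) * (u i * v i)) • χ i +
          ((s⁻¹ - 1) * u i) • ∑ l, Function.update v i 0 l • χ l) := by
  rw [act_mul, act_mul, act_rk1 u v (s⁻¹ - 1), act_dg, act_rk1]
  set η := ∑ l, v l • χ l with hη
  set ξ := ∑ l, Function.update v i 0 l • χ l with hξ
  have hηξ : η = v i • χ i + ξ := s5_sum_update v i χ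
  have h1 : ∑ j, v j • (Function.update (fun _ => (1 : k)) i t j •
      (χ j + ((s⁻¹ - 1) * u j) • η)) = s⁻¹ • η + ((t - 1) * v i) • (χ i + ((s⁻¹ - 1) * u i) • η) := by
    have h2 : ∀ j, v j • (Function.update (fun _ => (1 : k)) i t j •
      (χ j + ((s⁻¹ - 1) * u j) • η)) = v j • χ j + ((s⁻¹ - 1) * (u j * v j)) • η +
        (if j = i then ((t - 1) * v i) • (χ i + ((s⁻¹ - 1) * u i) • η) else 0) := by
      intro j
      by_cases hj : j = i
      · subst hj
        rw [Function.update_self, if_pos rfl]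
        module
      · rw [Function.update_of_ne hj, if_neg hj]
        module
    rw [Finset.sum_congr rfl fun j _ => h2 j, Finset.sum_add_distrib, Finset.sum_add_distrib,
      Finset.sum_ite_eq', if_pos (mem_univ i), ← hη, ← Finset.sum_smul, ← Finset.mul_sum, huv]
    module
  rw [h1]
  funext j
  have hss : s * s⁻¹ = 1 := mul_inv_cancel₀ hs
  by_cases hj : j = i
  · subst hj
    rw [Function.update_self, if_pos rfl, hηξ]
    match_scalars
    · linear_combination (u j * v j) * hss
    · linear_combination (u j) * hss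
  · rw [Function.update_of_ne hj, if_neg hj, hηξ]
    match_scalars
    · ring
    · linear_combination (u j * v i) * hss
    · linear_combination (u j) * hss


/-- the matrix `Z(1, ν)` -/
def s5_Z (u v : Fin N → k) (i : Fin N) (ν c : k) : Matrix (Fin N) (Fin N) k :=
  rk1 (Function.update u i 0) (fun j => if j = i then 1 else ν * v j) c

theorem s5_Z_sum (u v : Fin N → k) (huv : ∑ i, u i * v i = 1) (i : Fin N) (ν : k) :
    ∑ l, (if l = i then 1 else ν * v l) * Function.update u i 0 l = ν * (1 - u i * v i) := by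
  rw [← s5_omega u v huv i, Finset.mul_sum]
  refine Finset.sum_congr rfl (fun l _ => ?_)
  by_cases hl : l = i
  · subst hl; simp
  · rw [if_neg hl, Function.update_of_ne hl, Function.update_of_ne hl]; ring

theorem s5_Z_inv (u v : Fin N → k) (huv : ∑ i, u i * v i = 1) (i : Fin N) {ν : k}
    (hν : 1 + ν * (1 - u i * v i) ≠ 0) :
    s5_Z u v i ν 1 * s5_Z u v i ν (-(1 + ν * (1 - u i * v i))⁻¹) = 1 := by
  unfold s5_Z
  rw [s5_rk1_mul, s5_Z_sum u v huv i ν]
  have : 1 + -(1 + ν * (1 - u i * v i))⁻¹ +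
      1 * -(1 + ν * (1 - u i * v i))⁻¹ * (ν * (1 - u i * v i)) = 0 := by
    have h := inv_mul_cancel₀ hν
    linear_combination -h
  rw [this, s5_rk1_zero]

theorem s5_act_Z (u v : Fin N → k) (i : Fin N) (ν : k) (χ : Tup N k) :
    act (s5_Z u v i ν 1) χ = fun j => χ j + Function.update u i 0 j •
      (χ i + ν • ∑ l, Function.update v i 0 l • χ l) := by
  unfold s5_Z
  rw [act_rk1]
  have h1 : ∑ j, (if j = i then 1 else ν * v j) • χ j =
      χ i + ν • ∑ l, Function.update v i 0 l • χ l := by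
    have h2 : ∀ j, (if j = i then 1 else ν * v j) • χ j =
        (if j = i then χ i else 0) + ν • (Function.update v i 0 j • χ j) := by
      intro j
      by_cases hj : j = i
      · subst hj; simp
      · rw [if_neg hj, if_neg hj, Function.update_of_ne hj]; module
    rw [Finset.sum_congr rfl fun j _ => h2 j, Finset.sum_add_distrib, Finset.sum_ite_eq',
      if_pos (mem_univ i), ← Finset.smul_sum]
  rw [h1]
  funext j
  rw [one_mul]

/-- the composition `up * Z * dg` -/
theorem s5_act_T (u v : Fin N → k) (huv : ∑ i, u i * v i = 1) (i : Fin N) (ν r μ : k)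
    (χ : Tup N k) :
    act (up i (Function.update v i 0) r) (act (s5_Z u v i ν 1) (act (dg i μ) χ)) = fun j =>
      if j = i then μ • χ i + r • (∑ l, Function.update v i 0 l • χ l +
        (1 - u i * v i) • (μ • χ i + ν • ∑ l, Function.update v i 0 l • χ l))
      else χ j + u j • (μ • χ i + ν • ∑ l, Function.update v i 0 l • χ l) := by
  set ξ := ∑ l, Function.update v i 0 l • χ l with hξ
  have e1 : ∑ l, Function.update v i 0 l • (act (dg i μ) χ) l = ξ := by
    rw [hξ, act_dg]
    refine Finset.sum_congr rfl (fun l _ => ?_)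
    by_cases hl : l = i
    · subst hl; simp
    · simp only [Function.update_of_ne hl, one_smul]
  have e2 : (act (dg i μ) χ) i = μ • χ i := by rw [act_dg]; simp
  have e3 : ∀ j, j ≠ i → (act (dg i μ) χ) j = χ j := by
    intro j hj
    rw [act_dg]
    simp [hj]
  have e4 : act (s5_Z u v i ν 1) (act (dg i μ) χ) = fun j => (act (dg i μ) χ) j +
      Function.update u i 0 j • (μ • χ i + ν • ξ) := by
    rw [s5_act_Z, e1, e2]
  have e5 : ∑ l, Function.update v i 0 l • (act (s5_Z u v i ν 1) (act (dg i μ) χ)) l =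
      ξ + (1 - u i * v i) • (μ • χ i + ν • ξ) := by
    rw [e4, ← s5_omega u v huv i, Finset.sum_smul, ← e1, ← Finset.sum_add_distrib]
    refine Finset.sum_congr rfl (fun l _ => ?_)
    rw [e1, smul_add, mul_smul]
  rw [act_up, e5, e4]
  funext j
  by_cases hj : j = i
  · subst hj
    simp only [Function.update_self, if_true, e2, zero_smul, add_zero]
  · simp only [Function.update_of_ne hj, if_neg hj, e3 j hj]

/-- the parameters -/
def s5_ν (κ s t : k) : k := κ * (t - 1) * (s - 1) * (s⁻¹ - 1)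

def s5_r (κ s t : k) : k :=
  s5_ν κ s t * (t - 1) * ((1 + (s - 1) * κ) * (1 + (s⁻¹ - 1) * κ)) * t⁻¹

def s5_μ (vi κ s t : k) : k := (t - 1) * ((s - 1) * vi) * (1 + (s⁻¹ - 1) * κ)

/-- the two sides differ by a scaling -/
theorem s5_scale (a : Tup N k → ℝ) (ha : TInv a) (u v : Fin N → k)
    (huv : ∑ i, u i * v i = 1) (i : Fin N) {s t : k} (hs : s ≠ 0) (ht : t ≠ 0)
    (hμ : s5_μ (v i) (u i * v i) s t ≠ 0)
    (hδ : 1 + s5_ν (u i * v i) s t * (1 - u i * v i) ≠ 0) (χ : Tup N k) :
    a (act (up i (Function.update v i 0) (s5_r (u i * v i) s t))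
      (act (s5_Z u v i (s5_ν (u i * v i) s t) 1) (act (dg i (s5_μ (v i) (u i * v i) s t)) χ))) =
    a (act (rk1 u v (s - 1) * dg i t * rk1 u v (s⁻¹ - 1)) χ) := by
  rw [s5_act_T u v huv, s5_act_K u v huv i hs t χ]
  set ξ := ∑ l, Function.update v i 0 l • χ l with hξ
  set κ := u i * v i with hκ
  set lam : k := s5_μ (v i) κ s t * (1 + s5_ν κ s t * (1 - κ)) * t⁻¹ with hlam
  have hlam0 : lam ≠ 0 := mul_ne_zero (mul_ne_zero hμ hδ) (inv_ne_zero ht)
  rw [← ha (Function.update (fun _ => 1) i lam) (by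
    intro j
    by_cases hj : j = i
    · subst hj; rw [Function.update_self]; exact hlam0
    · rw [Function.update_of_ne hj]; exact one_ne_zero) (fun j => χ j +
      (if j = i then (t - 1) * (1 + (s - 1) * κ) else (t - 1) * (s - 1) * v i * u j) •
        ((1 + (s⁻¹ - 1) * κ) • χ i + ((s⁻¹ - 1) * u i) • ξ))]
  congr 1
  funext j
  have hss : s * s⁻¹ = 1 := mul_inv_cancel₀ hs
  have htt : t * t⁻¹ = 1 := mul_inv_cancel₀ ht
  by_cases hj : j = i
  · subst hj
    rw [if_pos rfl, Function.update_self, if_pos rfl, hlam]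
    unfold s5_r s5_μ s5_ν
    rw [hκ]
    match_scalars
    · field_simp
      ring
    · field_simp
  · rw [if_neg hj, Function.update_of_ne hj, if_neg hj]
    unfold s5_μ s5_ν
    rw [hκ]
    match_scalars
    · ring
    · ring
    · ring


/-- the main sum -/
def s5_G (a : Tup N k → ℝ) (u v : Fin N → k) (i : Fin N) (b : k × k) : ℝ :=
  |∑ χ, a χ * a (act (up i (Function.update v i 0) b.2) (act (s5_Z u v i b.1 1) χ))|

theorem s5_good (a : Tup N k → ℝ) (ha : TInv a) (u v : Fin N → k)
    (huv : ∑ i, u i * v i = 1) (i : Fin N) {s t : k} (hs : s ≠ 0) (ht : t ≠ 0)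
    (hμ : s5_μ (v i) (u i * v i) s t ≠ 0)
    (hδ : 1 + s5_ν (u i * v i) s t * (1 - u i * v i) ≠ 0) :
    |ip a (fun χ => a (act (rk1 u v (s - 1) * dg i t * rk1 u v (s⁻¹ - 1)) χ))| =
      s5_G a u v i (s5_ν (u i * v i) s t, s5_r (u i * v i) s t) := by
  unfold s5_G
  congr 1
  have hd : dg i (s5_μ (v i) (u i * v i) s t) * dg i (s5_μ (v i) (u i * v i) s t)⁻¹ =
      (1 : Matrix (Fin N) (Fin N) k) := by
    rw [dg_mul, mul_inv_cancel₀ hμ, dg_one]
  rw [← sum_act hd (mul_one_comm' hd) (fun χ => a χ * a (act (up i (Function.update v i 0)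
    (s5_r (u i * v i) s t)) (act (s5_Z u v i (s5_ν (u i * v i) s t) 1) χ)))]
  unfold ip
  refine Finset.sum_congr rfl (fun χ _ => ?_)
  rw [s5_scale a ha u v huv i hs ht hμ hδ χ, ha.act_dg i hμ]

theorem s5_G_sum (mixing : ∀ (a : Tup N k → ℝ) (_ : TInv a) (i : Fin N) (w : Fin N → k)
    (_ : w i = 0) (f : Tup N k → ℝ),
    ∑ r : k, |ip f (fun χ => a (act (up i w r) χ))| ≤
      Real.sqrt (nr f) * Real.sqrt (qq k * nr a +
        qq k ^ 2 * |ip a (fun χ => a (act (up i w 1) χ))|))
    (a : Tup N k → ℝ) (ha : TInv a) (u v : Fin N → k)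
    (huv : ∑ i, u i * v i = 1) (i : Fin N) {ν : k} (hδ : 1 + ν * (1 - u i * v i) ≠ 0) :
    ∑ r : k, s5_G a u v i (ν, r) ≤ Real.sqrt (nr a) * Real.sqrt (qq k * nr a + qq k ^ 2 *
      |ip a (fun χ => a (act (up i (Function.update v i 0) 1) χ))|) := by
  have hZ := s5_Z_inv u v huv i hδ
  set Zi := s5_Z u v i ν (-(1 + ν * (1 - u i * v i))⁻¹) with hZi
  have h1 := mixing a ha i (Function.update v i 0) (Function.update_self ..)
    (fun χ => a (act Zi χ))
  rw [nr_act (mul_one_comm' hZ) a] at h1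
  refine le_trans (le_of_eq ?_) h1
  refine Finset.sum_congr rfl (fun r _ => ?_)
  unfold s5_G
  rw [← ip_act_right hZ a (fun χ => a (act (up i (Function.update v i 0) r) χ))]
  rfl

/-- fibres -/
theorem s5_fibre {κ : k} (hκ : κ ≠ 0) {s t s0 t0 : k} (hs : s ≠ 0) (ht : t ≠ 0) (hs0 : s0 ≠ 0)
    (ht0 : t0 ≠ 0) (hν0 : s5_ν κ s t ≠ 0) (hδ : 1 + s5_ν κ s t * (1 - κ) ≠ 0)
    (hν : s5_ν κ s t = s5_ν κ s0 t0) (hr : s5_r κ s t = s5_r κ s0 t0) :
    t = t0 ∧ (s = s0 ∨ s = s0⁻¹) := by
  have hss : s * s⁻¹ = 1 := mul_inv_cancel₀ hs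
  have hss0 : s0 * s0⁻¹ = 1 := mul_inv_cancel₀ hs0
  have key : ∀ s t : k, s * s⁻¹ = 1 → t ≠ 0 → s5_r κ s t * t =
      s5_ν κ s t * ((t - 1) - (1 - κ) * s5_ν κ s t) := by
    intro s t hss ht
    have htt : t * t⁻¹ = 1 := mul_inv_cancel₀ ht
    unfold s5_r
    have e1 : (1 + (s - 1) * κ) * (1 + (s⁻¹ - 1) * κ) =
        1 - (1 - κ) * (κ * (s - 1) * (s⁻¹ - 1)) := by
      linear_combination (κ - 0) * hss
    rw [e1]
    have e2 : s5_ν κ s t * (t - 1) * (1 - (1 - κ) * (κ * (s - 1) * (s⁻¹ - 1))) * t⁻¹ * t =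
        s5_ν κ s t * (t - 1) * (1 - (1 - κ) * (κ * (s - 1) * (s⁻¹ - 1))) := by
      rw [mul_assoc _ t⁻¹ t, inv_mul_cancel₀ ht, mul_one]
    rw [e2]
    unfold s5_ν
    ring
  have k1 := key s t hss ht
  have k2 := key s0 t0 hss0 ht0
  rw [← hν, ← hr] at k2
  set ν := s5_ν κ s t with hνdef
  set r := s5_r κ s t with hrdef
  have hrν : r ≠ ν := by
    intro h
    rw [h] at k1
    have : ν * (1 + ν * (1 - κ)) = 0 := by linear_combination k1
    rcases mul_eq_zero.1 this with h' | h'
    · exact hν0 h'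
    · exact hδ h'
  have htt0 : t = t0 := by
    have : (t - t0) * (r - ν) = 0 := by linear_combination k1 - k2
    rcases mul_eq_zero.1 this with h' | h'
    · exact sub_eq_zero.1 h'
    · exact absurd (sub_eq_zero.1 h') hrν
  refine ⟨htt0, ?_⟩
  have ht1 : t - 1 ≠ 0 := by
    intro h
    apply hν0
    rw [hνdef]
    unfold s5_ν
    rw [h]; ring
  have hA : (s - 1) * (s⁻¹ - 1) = (s0 - 1) * (s0⁻¹ - 1) := by
    rw [hνdef, ← htt0] at hν
    unfold s5_ν at hν
    apply mul_left_cancel₀ (mul_ne_zero hκ ht1)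
    linear_combination hν
  have hB : (s - s0) * (s * s0 - 1) = 0 := by
    have : (s - s0) * (s * s0 - 1) = - s * s0 * ((s - 1) * (s⁻¹ - 1) - (s0 - 1) * (s0⁻¹ - 1)) := by
      field_simp
      ring
    rw [this, hA]
    ring
  rcases mul_eq_zero.1 hB with h' | h'
  · left; exact sub_eq_zero.1 h'
  · right
    exact eq_inv_of_mul_eq_one_left (sub_eq_zero.1 h')

theorem s5_two_step (mixing : ∀ (a : Tup N k → ℝ) (_ : TInv a) (i : Fin N) (w : Fin N → k)
    (_ : w i = 0) (f : Tup N k → ℝ),
    ∑ r : k, |ip f (fun χ => a (act (up i w r) χ))| ≤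
      Real.sqrt (nr f) * Real.sqrt (qq k * nr a +
        qq k ^ 2 * |ip a (fun χ => a (act (up i w 1) χ))|))
    (a : Tup N k → ℝ) (ha : TInv a) (u v : Fin N → k)
    (huv : ∑ i, u i * v i = 1) (i : Fin N) (hi : u i * v i ≠ 0) :
    ∑ s ∈ univ.erase (0 : k), ∑ t ∈ univ.erase (0 : k),
      ip a (fun χ => a (act (rk1 u v (s - 1) * dg i t * rk1 u v (s⁻¹ - 1)) χ)) ≤
    2 * qq k * (Real.sqrt (nr a) * Real.sqrt (qq k * nr a + qq k ^ 2 *
      |ip a (fun χ => a (act (up i (Function.update v i 0) 1) χ))|)) +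
      4 * qq k * nr a := by
  set B := Real.sqrt (nr a) * Real.sqrt (qq k * nr a + qq k ^ 2 *
      |ip a (fun χ => a (act (up i (Function.update v i 0) 1) χ))|) with hB
  have hB0 : 0 ≤ B := mul_nonneg (Real.sqrt_nonneg _) (Real.sqrt_nonneg _)
  set κ := u i * v i with hκ
  set f : k × k → ℝ := fun p =>
    ip a (fun χ => a (act (rk1 u v (p.1 - 1) * dg i p.2 * rk1 u v (p.1⁻¹ - 1)) χ)) with hf
  set φ : k × k → k × k := fun p => (s5_ν κ p.1 p.2, s5_r κ p.1 p.2) with hφ
  set S : Finset (k × k) := (univ.erase (0 : k)) ×ˢ (univ.erase (0 : k)) with hS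
  have hsum : ∑ s ∈ univ.erase (0 : k), ∑ t ∈ univ.erase (0 : k),
      ip a (fun χ => a (act (rk1 u v (s - 1) * dg i t * rk1 u v (s⁻¹ - 1)) χ)) =
      ∑ p ∈ S, f p := by
    rw [hS, Finset.sum_product]
  rw [hsum]
  set P : k × k → Prop := fun p => s5_μ (v i) κ p.1 p.2 ≠ 0 ∧
    1 + s5_ν κ p.1 p.2 * (1 - κ) ≠ 0 with hP
  rw [← Finset.sum_filter_add_sum_filter_not S P f]
  have hSmem : ∀ p ∈ S, p.1 ≠ 0 ∧ p.2 ≠ 0 := by
    intro p hp
    rw [hS, mem_product, mem_erase, mem_erase] at hp
    exact ⟨hp.1.1, hp.2.1⟩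
  -- the good part
  have hgood : ∑ p ∈ S.filter P, f p ≤ 2 * qq k * B := by
    have h1 : ∑ p ∈ S.filter P, f p ≤ ∑ p ∈ S.filter P, s5_G a u v i (φ p) := by
      refine Finset.sum_le_sum (fun p hp => ?_)
      obtain ⟨hpS, hp1, hp2⟩ := mem_filter.1 hp
      obtain ⟨hs, ht⟩ := hSmem p hpS
      have := s5_good a ha u v huv i hs ht hp1 hp2
      rw [hφ]
      simp only
      rw [hκ, ← this]
      exact le_abs_self _
    refine h1.trans ?_
    rw [Finset.sum_comp (s5_G a u v i) φ]
    have h2 : ∀ b ∈ (S.filter P).image φ, ((S.filter P).filter (fun p => φ p = b)).card •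
        s5_G a u v i b ≤ 2 * s5_G a u v i b := by
      intro b hb
      rw [nsmul_eq_mul]
      refine mul_le_mul_of_nonneg_right ?_ (abs_nonneg _)
      obtain ⟨p0, hp0, rfl⟩ := mem_image.1 hb
      obtain ⟨hp0S, hp01, hp02⟩ := mem_filter.1 hp0
      obtain ⟨hs0, ht0⟩ := hSmem p0 hp0S
      have hsub : (S.filter P).filter (fun p => φ p = φ p0) ⊆ {p0, (p0.1⁻¹, p0.2)} := by
        intro p hp
        obtain ⟨hpf, hpe⟩ := mem_filter.1 hp
        obtain ⟨hpS, hp1, hp2⟩ := mem_filter.1 hpf
        obtain ⟨hs, ht⟩ := hSmem p hpS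
        have hν0 : s5_ν κ p.1 p.2 ≠ 0 := by
          intro h0
          apply hp1
          unfold s5_ν at h0
          unfold s5_μ
          have hss : p.1 * p.1⁻¹ = 1 := mul_inv_cancel₀ hs
          rcases mul_eq_zero.1 h0 with h0 | h0
          · rcases mul_eq_zero.1 h0 with h0 | h0
            · rcases mul_eq_zero.1 h0 with h0 | h0
              · exact absurd h0 hi
              · rw [h0]; ring
            · rw [h0]; ring
          · have : p.1 - 1 = 0 := by linear_combination hss - p.1 * h0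
            rw [this]; ring
        rw [hφ] at hpe
        simp only [Prod.mk.injEq] at hpe
        obtain ⟨e1, e2⟩ := s5_fibre hi hs ht hs0 ht0 hν0 hp2 hpe.1 hpe.2
        rw [mem_insert, mem_singleton]
        rcases e2 with e2 | e2
        · left; exact Prod.ext e2 e1
        · right; exact Prod.ext e2 e1
      have := (card_le_card hsub).trans card_le_two
      exact_mod_cast this
    refine (Finset.sum_le_sum h2).trans ?_
    rw [← Finset.mul_sum]
    set Dn : Finset k := univ.filter (fun ν => 1 + ν * (1 - κ) ≠ 0) with hDn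
    have h3 : ∑ b ∈ (S.filter P).image φ, s5_G a u v i b ≤
        ∑ b ∈ Dn ×ˢ (univ : Finset k), s5_G a u v i b := by
      refine Finset.sum_le_sum_of_subset_of_nonneg ?_ (fun _ _ _ => abs_nonneg _)
      intro b hb
      obtain ⟨p0, hp0, rfl⟩ := mem_image.1 hb
      obtain ⟨hp0S, hp01, hp02⟩ := mem_filter.1 hp0
      rw [mem_product]
      exact ⟨mem_filter.2 ⟨mem_univ _, hp02⟩, mem_univ _⟩
    have h4 : ∑ b ∈ Dn ×ˢ (univ : Finset k), s5_G a u v i b ≤ qq k * B := by
      rw [Finset.sum_product]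
      calc ∑ ν ∈ Dn, ∑ r : k, s5_G a u v i (ν, r) ≤ ∑ ν ∈ Dn, B :=
            Finset.sum_le_sum (fun ν hν => s5_G_sum mixing a ha u v huv i (mem_filter.1 hν).2)
        _ = (Dn.card : ℝ) * B := by rw [sum_const, nsmul_eq_mul]
        _ ≤ qq k * B := by
          refine mul_le_mul_of_nonneg_right ?_ hB0
          unfold qq
          exact_mod_cast card_le_univ Dn
    linarith
  -- the bad part
  have hbad : ∑ p ∈ S.filter (fun p => ¬ P p), f p ≤ 4 * qq k * nr a := by
    have h1 : ∀ p ∈ S.filter (fun p => ¬ P p), f p ≤ nr a := by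
      intro p hp
      obtain ⟨hs, ht⟩ := hSmem p (mem_filter.1 hp).1
      have hss : p.1 * p.1⁻¹ = 1 := mul_inv_cancel₀ hs
      have e1 : rk1 u v (p.1 - 1) * rk1 u v (p.1⁻¹ - 1) = 1 := by
        rw [rk1_mul u v huv, hss, sub_self, s5_rk1_zero]
      have e2 : rk1 u v (p.1⁻¹ - 1) * rk1 u v (p.1 - 1) = 1 := mul_one_comm' e1
      have e3 : (rk1 u v (p.1 - 1) * dg i p.2 * rk1 u v (p.1⁻¹ - 1)) *
          (rk1 u v (p.1 - 1) * dg i p.2⁻¹ * rk1 u v (p.1⁻¹ - 1)) = 1 := by
        calc _ = rk1 u v (p.1 - 1) * dg i p.2 * (rk1 u v (p.1⁻¹ - 1) * rk1 u v (p.1 - 1)) *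
              dg i p.2⁻¹ * rk1 u v (p.1⁻¹ - 1) := by simp only [mul_assoc]
          _ = rk1 u v (p.1 - 1) * (dg i p.2 * dg i p.2⁻¹) * rk1 u v (p.1⁻¹ - 1) := by
              rw [e2, mul_one]; simp only [mul_assoc]
          _ = 1 := by rw [dg_mul, mul_inv_cancel₀ ht, dg_one, mul_one, e1]
      have h2 := abs_ip_le a
        (fun χ => a (act (rk1 u v (p.1 - 1) * dg i p.2 * rk1 u v (p.1⁻¹ - 1)) χ))
      rw [nr_act e3 a, Real.mul_self_sqrt (nr_nonneg a)] at h2
      exact (le_abs_self _).trans h2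
    have h2 : (S.filter (fun p => ¬ P p)).card ≤ 4 * Fintype.card k := by
      have hsub : S.filter (fun p => ¬ P p) ⊆
          ((({1} : Finset k) ×ˢ (univ : Finset k)) ∪ ((univ : Finset k) ×ˢ ({1} : Finset k))) ∪
          ((({(1 - κ⁻¹)⁻¹} : Finset k) ×ˢ (univ : Finset k)) ∪
          ((univ : Finset k).image
            (fun s => (s, 1 - (κ * (s - 1) * (s⁻¹ - 1) * (1 - κ))⁻¹)))) := by
        intro p hp
        obtain ⟨hpS, hp1⟩ := mem_filter.1 hp
        obtain ⟨hs, ht⟩ := hSmem p hpS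
        rw [hP] at hp1
        simp only [not_and_or, not_not] at hp1
        rw [mem_union, mem_union, mem_union, mem_product, mem_product, mem_product, mem_image]
        simp only [mem_singleton, mem_univ, and_true, true_and]
        rcases hp1 with h | h
        · unfold s5_μ at h
          rcases mul_eq_zero.1 h with h | h
          · rcases mul_eq_zero.1 h with h | h
            · left; right; exact sub_eq_zero.1 h
            · rcases mul_eq_zero.1 h with h | h
              · left; left; exact sub_eq_zero.1 h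
              · exfalso
                apply hi
                rw [hκ, h, mul_zero]
          · right; left
            have e1 : p.1⁻¹ = 1 - κ⁻¹ := by
              have hkk : κ * κ⁻¹ = 1 := mul_inv_cancel₀ hi
              apply mul_left_cancel₀ hi
              linear_combination h + hkk
            rw [← e1, inv_inv]
        · right; right
          refine ⟨p.1, Prod.ext rfl ?_⟩
          simp only
          unfold s5_ν at h
          have e1 : (1 - p.2) * (κ * (p.1 - 1) * (p.1⁻¹ - 1) * (1 - κ)) = 1 := by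
            linear_combination -h
          have e2 := eq_inv_of_mul_eq_one_left e1
          rw [← e2]
          ring
      refine (card_le_card hsub).trans ?_
      refine (card_union_le _ _).trans ?_
      have c1 := card_union_le (({1} : Finset k) ×ˢ (univ : Finset k))
        ((univ : Finset k) ×ˢ ({1} : Finset k))
      have c2 := card_union_le (({(1 - κ⁻¹)⁻¹} : Finset k) ×ˢ (univ : Finset k))
        ((univ : Finset k).image (fun s => (s, 1 - (κ * (s - 1) * (s⁻¹ - 1) * (1 - κ))⁻¹)))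
      have c3 := card_image_le (s := (univ : Finset k))
        (f := fun s => (s, 1 - (κ * (s - 1) * (s⁻¹ - 1) * (1 - κ))⁻¹))
      rw [card_product, card_product, card_singleton, card_univ] at c1
      rw [card_product, card_singleton, card_univ] at c2
      rw [card_univ] at c3
      omega
    calc ∑ p ∈ S.filter (fun p => ¬ P p), f p ≤ ∑ p ∈ S.filter (fun p => ¬ P p), nr a :=
          Finset.sum_le_sum h1
      _ = ((S.filter (fun p => ¬ P p)).card : ℝ) * nr a := by rw [sum_const, nsmul_eq_mul]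
      _ ≤ (4 * qq k) * nr a := by
        refine mul_le_mul_of_nonneg_right ?_ (nr_nonneg a)
        unfold qq
        exact_mod_cast h2
  linarith


theorem two_step (a : Tup N k → ℝ) (ha : TInv a) (u v : Fin N → k)
    (huv : ∑ i, u i * v i = 1) (i : Fin N) (hi : u i * v i ≠ 0) :
    ∑ s ∈ univ.erase (0 : k), ∑ t ∈ univ.erase (0 : k),
      ip a (fun χ => a (act (rk1 u v (s - 1) * dg i t * rk1 u v (s⁻¹ - 1)) χ)) ≤
    2 * qq k * (Real.sqrt (nr a) * Real.sqrt (qq k * nr a + qq k ^ 2 *
      |ip a (fun χ => a (act (up i (Function.update v i 0) 1) χ))|)) +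
      4 * qq k * nr a :=
  s5_two_step (fun a ha i w hw f => mixing a ha i w hw f) a ha u v huv i hi

end

end PL
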