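import Pool.Agent.Helper91.PL.SBasic
import Pool.Agent.Helper91.PL.S1
import Pool.Agent.Helper91.PL.S3
import Pool.Agent.Helper91.PL.S4
import Pool.Agent.Helper91.PL.S5
import Pool.Agent.Helper91.PL.S6

/-!
# MP_bae8ce_ag, module S7 : the key estimate
-/

set_option autoImplicit false
set_option linter.unusedSectionVars false

open Finset

namespace PL

noncomputable section

section

variable {k : Type} [Field k] [Fintype k] [DecidableEq k] {N : ℕ}

theorem s7_q : 2 ≤ qq k := by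
  unfold qq
  have h : 1 < Fintype.card k := Fintype.one_lt_card
  exact_mod_cast h

theorem s7_rs_TInv (π : Fin N → Fin N → Bool) (Φ : Tup N k → ℝ) (h : TInv Φ) :
    TInv (rs π Φ) := by
  classical
  intro c hc χ
  unfold rs
  by_cases h1 : HasPat π χ
  · rw [if_pos h1, if_pos (h1.smul hc), h c hc]
  · have h2 : ¬ HasPat π (fun i => c i • χ i) := by
      intro h2
      apply h1
      have h3 := h2.smul (c := fun i => (c i)⁻¹) (fun i => inv_ne_zero (hc i))
      have h4 : (fun i => (c i)⁻¹ • (c i • χ i)) = χ := by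
        funext i
        rw [smul_smul, inv_mul_cancel₀ (hc i), one_smul]
      rwa [h4] at h3
    rw [if_neg h1, if_neg h2]

theorem s7_nr_rs_le (π : Fin N → Fin N → Bool) (Φ : Tup N k → ℝ) : nr (rs π Φ) ≤ nr Φ := by
  refine Finset.sum_le_sum fun χ _ => ?_
  unfold rs
  split_ifs
  · exact le_rfl
  · rw [zero_pow two_ne_zero]
    exact sq_nonneg _

theorem s7_rs_ne {π : Fin N → Fin N → Bool} {Φ : Tup N k → ℝ} {χ : Tup N k}
    (h : rs π Φ χ ≠ 0) : HasPat π χ := by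
  by_contra h1
  apply h
  unfold rs
  rw [if_neg h1]

theorem s7_pat_equiv {π : Fin N → Fin N → Bool} {χ : Tup N k} (h : HasPat π χ) :
    Equivalence fun i j => π i j = true := by
  refine ⟨fun i => ?_, fun {i j} hij => ?_, fun {i j l} hij hjl => ?_⟩
  · exact (h.2 i i).1 (par_refl _)
  · exact (h.2 j i).1 (par_symm ((h.2 i j).2 hij))
  · exact (h.2 i l).1 (par_trans (h.1 j) ((h.2 i j).2 hij) ((h.2 j l).2 hjl))

theorem s7_rs_zero {π : Fin N → Fin N → Bool} (Φ : Tup N k → ℝ)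
    (h : ¬ Equivalence fun i j => π i j = true) (χ : Tup N k) : rs π Φ χ = 0 := by
  by_contra h1
  exact h (s7_pat_equiv (s7_rs_ne h1))

/-- Case (A). -/
theorem s7_caseA (a b : Tup N k → ℝ) (ha : TInv a) (h hinv : Matrix (Fin N) (Fin N) k)
    (hh : h * hinv = 1) (i i' : Fin N) (hb : ∀ χ, b χ ≠ 0 → par (χ i) (χ i')) (j l : Fin N)
    (hjl : h i j * h i' l - h i l * h i' j ≠ 0) (hs : ∀ χ, a χ ≠ 0 → ¬ par (χ j) (χ l)) :
    ip a (fun χ => b (act h χ)) ^ 2 ≤ 2 / (qq k - 1) * nr a * nr b := by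
  classical
  have hq : 0 < qq k - 1 := by linarith [s7_q (k := k)]
  have h1 : ip a (fun χ => b (act h χ)) =
      ip (fun χ => if b (act h χ) = 0 then 0 else a χ) (fun χ => b (act h χ)) := by
    unfold ip
    refine Finset.sum_congr rfl fun χ _ => ?_
    by_cases h2 : b (act h χ) = 0
    · simp only [h2, mul_zero]
    · simp only [if_neg h2]
  have h2 : nr (fun χ => if b (act h χ) = 0 then 0 else a χ) ≤ 2 / (qq k - 1) * nr a := by
    refine le_trans ?_ (count_lemma a ha (h i) (h i') j l hjl hs)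
    unfold nr
    refine Finset.sum_le_sum fun χ _ => ?_
    by_cases h3 : b (act h χ) = 0
    · simp only [h3, if_true]
      rw [zero_pow two_ne_zero]
      split_ifs
      · exact sq_nonneg _
      · exact le_rfl
    · simp only [if_neg h3]
      have h4 := hb _ h3
      have h5 : par (∑ m, h i m • χ m) (∑ m, h i' m • χ m) := h4
      rw [if_pos h5]
  rw [h1]
  refine (ip_sq_le _ _).trans ?_
  rw [nr_act hh]
  exact mul_le_mul_of_nonneg_right h2 (nr_nonneg _)

/-- Case (C). -/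
theorem s7_caseC {r : ℕ} (Φ : Tup (r + 2) k → ℝ) (hΦ : Adm0 Φ)
    (π : Fin (r + 2) → Fin (r + 2) → Bool) (b : Tup (r + 2) k → ℝ) (hb : TInv b)
    (hbn : nr b ≤ nr Φ) (h hinv : Matrix (Fin (r + 2)) (Fin (r + 2)) k) (hh : h * hinv = 1)
    (i i₀ : Fin (r + 2)) (h1 : hinv i₀ i * h i i₀ ≠ 0) (h2 : ∀ j, j ≠ i₀ → π i₀ j = false)
    (l : Fin (r + 2)) (hl : l ≠ i₀) (hil : h i l ≠ 0) :
    ip (rs π Φ) (fun χ => b (act h χ)) ^ 4 ≤
      4 * (2 * Real.sqrt (1 + 10 * (r + 2)) + 4) / Real.sqrt (Real.sqrt (qq k)) *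
        nr Φ ^ 4 := by
  classical
  set a := rs π Φ with ha
  have haT : TInv a := s7_rs_TInv π Φ hΦ.scale
  set n := nr Φ with hn
  have hn0 : 0 ≤ n := nr_nonneg _
  have han : nr a ≤ n := s7_nr_rs_le π Φ
  have ha0 : 0 ≤ nr a := nr_nonneg _
  have hb0 : 0 ≤ nr b := nr_nonneg _
  have hq2 : 2 ≤ qq k := s7_q
  have hq : 0 < qq k - 1 := by linarith
  have hcard : ((univ.erase (0 : k)).card : ℝ) = qq k - 1 := by
    rw [Finset.card_erase_of_mem (Finset.mem_univ _), Finset.card_univ, qq,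
      Nat.cast_sub (Fintype.card_pos), Nat.cast_one]
  set u : Fin (r + 2) → k := fun m => hinv m i with hu
  set v : Fin (r + 2) → k := fun m => h i m with hv
  have huv : ∑ m, u m * v m = 1 := by
    have h3 := congrFun (congrFun hh i) i
    rw [Matrix.mul_apply, Matrix.one_apply_eq] at h3
    refine Eq.trans (Finset.sum_congr rfl fun m _ => ?_) h3
    exact mul_comm _ _
  have hconj : ∀ s : k, hinv * dg i s * h = rk1 u v (s - 1) := by
    intro s
    have h3 : dg (N := r + 2) i s = 1 + dg i s - 1 := by abel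
    ext x y
    rw [Matrix.mul_apply]
    have h4 : ∀ m, (hinv * dg i s) x m * h m y =
        hinv x m * h m y + (if m = i then (s - 1) * (hinv x m * h m y) else 0) := by
      intro m
      unfold dg
      rw [Matrix.mul_diagonal]
      by_cases hm : m = i
      · subst hm
        simp only [Function.update_self, if_true]
        ring
      · simp [hm]
    rw [Finset.sum_congr rfl fun m _ => h4 m, Finset.sum_add_distrib, Finset.sum_ite_eq',
      ← Matrix.mul_apply, mul_one_comm' hh]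
    simp only [Finset.mem_univ, if_true, rk1, Matrix.one_apply, hu, hv]
  set cc : k → ℝ := fun s => ip a (fun χ => a (act (rk1 u v (s - 1)) χ)) with hcc
  have hS1 : ip a (fun χ => b (act h χ)) ^ 2 ≤
      nr b * ((∑ s ∈ univ.erase (0 : k), cc s) / (qq k - 1)) := by
    have h3 := cs_step a b haT hb h hinv hh i
    simp only [hconj] at h3
    exact h3
  set TS : k → ℝ := fun s => ∑ t ∈ univ.erase (0 : k),
    ip a (fun χ => a (act (rk1 u v (s - 1) * dg i₀ t * rk1 u v (s⁻¹ - 1)) χ)) with hTS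
  have hS2 : ∀ s ∈ univ.erase (0 : k), cc s ^ 2 ≤ nr a * (TS s / (qq k - 1)) := by
    intro s hs
    have hs0 : s ≠ 0 := (Finset.mem_erase.1 hs).1
    have h3 : rk1 u v (s - 1) * rk1 u v (s⁻¹ - 1) = 1 := by
      rw [rk1_mul u v huv, mul_inv_cancel₀ hs0, sub_self]
      ext x y
      simp only [rk1, zero_mul, add_zero, Matrix.one_apply]
    have h4 := cs_step a a haT haT (rk1 u v (s⁻¹ - 1)) (rk1 u v (s - 1)) (mul_one_comm' h3) i₀
    rw [ip_act_right (mul_one_comm' h3), ip_comm] at h4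
    exact h4
  have hsum : ∑ s ∈ univ.erase (0 : k), cc s ^ 2 ≤
      nr a * ((∑ s ∈ univ.erase (0 : k), TS s) / (qq k - 1)) := by
    refine (Finset.sum_le_sum hS2).trans (le_of_eq ?_)
    rw [← Finset.mul_sum, Finset.sum_div]
  -- the fourth root of `Q`
  set x : ℝ := Real.sqrt (Real.sqrt (qq k)) with hx
  have hq0 : 0 ≤ qq k := by linarith
  have hx2 : x ^ 2 = Real.sqrt (qq k) := Real.sq_sqrt (Real.sqrt_nonneg _)
  have hx4 : x ^ 4 = qq k := by
    have : x ^ 4 = (x ^ 2) ^ 2 := by ring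
    rw [this, hx2, Real.sq_sqrt hq0]
  have hx1 : 1 ≤ x := by
    rw [hx]
    apply Real.one_le_sqrt.2
    apply Real.one_le_sqrt.2
    linarith
  have hx0 : 0 < x := by linarith
  set L : ℝ := Real.sqrt (1 + 10 * (r + 2)) with hL
  have hL0 : 0 ≤ L := Real.sqrt_nonneg _
  have hw0 : Function.update v i₀ 0 ≠ 0 := by
    intro h3
    have h4 := congrFun h3 l
    rw [Function.update_of_ne hl] at h4
    exact hil h4
  have hc := c_bound Φ hΦ π i₀ h2 (Function.update v i₀ 0) (Function.update_self _ _ _) hw0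
  set c := |ip (rs π Φ) (fun χ => rs π Φ (act (up i₀ (Function.update v i₀ 0) 1) χ))| with hcdef
  have hTSle : ∑ s ∈ univ.erase (0 : k), TS s ≤ (2 * L + 4) * x ^ 7 * n := by
    have h3 := two_step a haT u v huv i₀ h1
    refine h3.trans ?_
    have h4 : qq k * nr a + qq k ^ 2 * c ≤ (1 + 10 * (r + 2)) * x ^ 6 * n := by
      have h5 : qq k * nr a ≤ x ^ 6 * n := by
        rw [← hx4]
        have h6 : x ^ 4 ≤ x ^ 6 := pow_le_pow_right₀ hx1 (by norm_num)
        exact mul_le_mul h6 han ha0 (by positivity)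
      have h7 : qq k ^ 2 * c ≤ 10 * (r + 2) * x ^ 6 * n := by
        calc qq k ^ 2 * c ≤ qq k ^ 2 * ((10 * (r + 2) : ℝ) / Real.sqrt (qq k) * n) :=
              mul_le_mul_of_nonneg_left hc (by positivity)
          _ = 10 * (r + 2) * x ^ 6 * n := by
              rw [← hx2, ← hx4]
              field_simp
      linarith
    have h8 : Real.sqrt (qq k * nr a + qq k ^ 2 * c) ≤ L * x ^ 3 * Real.sqrt n := by
      refine (Real.sqrt_le_sqrt h4).trans (le_of_eq ?_)
      rw [Real.sqrt_mul (by positivity), Real.sqrt_mul (by positivity)]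
      congr 2
      have : x ^ 6 = (x ^ 3) ^ 2 := by ring
      rw [this, Real.sqrt_sq (by positivity)]
    have h9 : Real.sqrt (nr a) * Real.sqrt (qq k * nr a + qq k ^ 2 * c) ≤ L * x ^ 3 * n := by
      calc Real.sqrt (nr a) * Real.sqrt (qq k * nr a + qq k ^ 2 * c)
          ≤ Real.sqrt n * (L * x ^ 3 * Real.sqrt n) :=
            mul_le_mul (Real.sqrt_le_sqrt han) h8 (Real.sqrt_nonneg _) (Real.sqrt_nonneg _)
        _ = L * x ^ 3 * (Real.sqrt n * Real.sqrt n) := by ring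
        _ = L * x ^ 3 * n := by rw [Real.mul_self_sqrt hn0]
    calc 2 * qq k * (Real.sqrt (nr a) * Real.sqrt (qq k * nr a + qq k ^ 2 * c)) +
          4 * qq k * nr a
        ≤ 2 * qq k * (L * x ^ 3 * n) + 4 * qq k * n := by
          refine add_le_add (mul_le_mul_of_nonneg_left h9 (by positivity))
            (mul_le_mul_of_nonneg_left han (by positivity))
      _ = 2 * L * x ^ 7 * n + 4 * x ^ 4 * n := by
          rw [← hx4]
          ring
      _ ≤ 2 * L * x ^ 7 * n + 4 * x ^ 7 * n := by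
          have h10 : x ^ 4 ≤ x ^ 7 := pow_le_pow_right₀ hx1 (by norm_num)
          have h11 : 4 * x ^ 4 * n ≤ 4 * x ^ 7 * n :=
            mul_le_mul_of_nonneg_right (by linarith) hn0
          linarith
      _ = (2 * L + 4) * x ^ 7 * n := by ring
  -- conclusion
  set S : ℝ := ∑ s ∈ univ.erase (0 : k), cc s with hSdef
  have hCS : S ^ 2 ≤ (qq k - 1) * ∑ s ∈ univ.erase (0 : k), cc s ^ 2 := by
    rw [← hcard]
    exact sq_sum_le_card_mul_sum_sq
  have hS3 : S ^ 2 ≤ n * ((2 * L + 4) * x ^ 7 * n) := by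
    calc S ^ 2 ≤ (qq k - 1) * ∑ s ∈ univ.erase (0 : k), cc s ^ 2 := hCS
      _ ≤ (qq k - 1) * (nr a * ((∑ s ∈ univ.erase (0 : k), TS s) / (qq k - 1))) :=
          mul_le_mul_of_nonneg_left hsum hq.le
      _ = nr a * ∑ s ∈ univ.erase (0 : k), TS s := by
          field_simp
      _ ≤ nr a * ((2 * L + 4) * x ^ 7 * n) := mul_le_mul_of_nonneg_left hTSle ha0
      _ ≤ n * ((2 * L + 4) * x ^ 7 * n) := mul_le_mul_of_nonneg_right han (by positivity)
  have hX4 : ip a (fun χ => b (act h χ)) ^ 4 ≤ (nr b * (S / (qq k - 1))) ^ 2 := by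
    have h3 : ip a (fun χ => b (act h χ)) ^ 4 = (ip a (fun χ => b (act h χ)) ^ 2) ^ 2 := by ring
    rw [h3]
    exact pow_le_pow_left₀ (sq_nonneg _) hS1 2
  refine hX4.trans ?_
  have h3 : (nr b * (S / (qq k - 1))) ^ 2 = nr b ^ 2 * S ^ 2 / (qq k - 1) ^ 2 := by
    field_simp
  rw [h3, div_mul_eq_mul_div, div_le_div_iff₀ (by positivity) hx0]
  have h4 : nr b ^ 2 ≤ n ^ 2 := pow_le_pow_left₀ hb0 hbn 2
  have h5 : qq k ^ 2 ≤ 4 * (qq k - 1) ^ 2 := by nlinarith
  calc nr b ^ 2 * S ^ 2 * x ≤ n ^ 2 * (n * ((2 * L + 4) * x ^ 7 * n)) * x := by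
        refine mul_le_mul_of_nonneg_right ?_ hx0.le
        exact mul_le_mul h4 hS3 (sq_nonneg _) (by positivity)
    _ = (2 * L + 4) * n ^ 4 * (x ^ 4) ^ 2 := by ring
    _ = (2 * L + 4) * n ^ 4 * qq k ^ 2 := by rw [hx4]
    _ ≤ (2 * L + 4) * n ^ 4 * (4 * (qq k - 1) ^ 2) :=
        mul_le_mul_of_nonneg_left h5 (by positivity)
    _ = 4 * (2 * L + 4) * n ^ 4 * (qq k - 1) ^ 2 := by ring

end

theorem key_est (p : ℕ) [Fact p.Prime] (r : ℕ) (ε : ℝ) (hε : 0 < ε) : ∃ Q₀ : ℕ,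
    ∀ (k : Type) [Field k] [Fintype k] [DecidableEq k] [Algebra (ZMod p) k],
      Q₀ ≤ Fintype.card k → ∀ Φ : Tup (r + 2) k → ℝ, Adm0 Φ →
      ∀ (π π' : Fin (r + 2) → Fin (r + 2) → Bool)
        (g ginv : Matrix (Fin (r + 2)) (Fin (r + 2)) (ZMod p)), g * ginv = 1 → ¬ BP π g →
        |ip (rs π Φ) (fun χ => rs π' Φ (act (bc g) χ))| ≤ ε * nr Φ := by
  classical
  set L : ℝ := Real.sqrt (1 + 10 * (r + 2)) with hL
  have hL0 : 0 ≤ L := Real.sqrt_nonneg _
  obtain ⟨Q₀, hQ₀⟩ := exists_nat_gt ((4 * (2 * L + 4) / ε ^ 4) ^ 4 + 2 / ε ^ 2 + 1)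
  refine ⟨Q₀, fun k _ _ _ _ hQ Φ hΦ π π' g ginv hg hbp => ?_⟩
  have hq2 : 2 ≤ qq k := s7_q
  have hq : 0 < qq k - 1 := by linarith
  have hQ1 : (Q₀ : ℝ) ≤ qq k := by
    unfold qq
    exact_mod_cast hQ
  have hn0 : 0 ≤ nr Φ := nr_nonneg _
  have hεn : 0 ≤ ε * nr Φ := by positivity
  -- degenerate cases
  by_cases hπ : Equivalence fun i j => π i j = true
  swap
  · have h1 : ip (rs π Φ) (fun χ => rs π' Φ (act (bc g) χ)) = 0 := by
      unfold ip
      exact Finset.sum_eq_zero fun χ _ => by rw [s7_rs_zero Φ hπ, zero_mul]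
    rw [h1, abs_zero]
    exact hεn
  by_cases hπ' : Equivalence fun i j => π' i j = true
  swap
  · have h1 : ip (rs π Φ) (fun χ => rs π' Φ (act (bc g) χ)) = 0 := by
      unfold ip
      exact Finset.sum_eq_zero fun χ _ => by simp only [s7_rs_zero Φ hπ', mul_zero]
    rw [h1, abs_zero]
    exact hεn
  have hbc1 : bc (k := k) g * bc ginv = 1 := by
    unfold bc
    rw [← Matrix.map_mul, hg, Matrix.map_one _ (map_zero _) (map_one _)]
  have hinj : Function.Injective (algebraMap (ZMod p) k) := (algebraMap (ZMod p) k).injective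
  have hsmall : 2 / (qq k - 1) ≤ ε ^ 2 := by
    rw [div_le_iff₀ hq]
    have h1 : 2 / ε ^ 2 ≤ qq k - 1 := by
      have h2 : 0 ≤ (4 * (2 * L + 4) / ε ^ 4) ^ 4 := by positivity
      linarith
    rw [div_le_iff₀ (by positivity)] at h1
    linarith
  -- the conclusion from a bound for the square
  have hsq : ∀ X A B : ℝ, 0 ≤ A → A ≤ nr Φ → 0 ≤ B → B ≤ nr Φ →
      X ^ 2 ≤ 2 / (qq k - 1) * A * B → |X| ≤ ε * nr Φ := by
    intro X A B hA hA' hB hB' hX
    refine abs_le_of_sq_le_sq (hX.trans ?_) hεn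
    have h1 : A * B ≤ nr Φ * nr Φ := mul_le_mul hA' hB' hB hn0
    calc 2 / (qq k - 1) * A * B = 2 / (qq k - 1) * (A * B) := by ring
      _ ≤ ε ^ 2 * (nr Φ * nr Φ) :=
          mul_le_mul hsmall h1 (mul_nonneg hA hB) (by positivity)
      _ = (ε * nr Φ) ^ 2 := by ring
  by_cases HA : ∃ i i', i ≠ i' ∧ π' i i' = true ∧ ∃ j l, π j l = false ∧
      g i j * g i' l ≠ g i l * g i' j
  · obtain ⟨i, i', -, hii, j, l, hjl, hne⟩ := HA
    refine hsq _ _ _ (nr_nonneg _) (s7_nr_rs_le π Φ) (nr_nonneg _) (s7_nr_rs_le π' Φ)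
      (s7_caseA (rs π Φ) (rs π' Φ) (s7_rs_TInv π Φ hΦ.scale) (bc g) (bc ginv) hbc1 i i'
        (fun χ hχ => ((s7_rs_ne hχ).2 i i').2 hii) j l ?_ (fun χ hχ h => ?_))
    · simp only [bc, Matrix.map_apply]
      rw [← map_mul, ← map_mul, ← map_sub]
      intro h
      apply hne
      have h2 := (map_eq_zero_iff _ hinj).1 h
      exact sub_eq_zero.1 h2
    · have h3 := ((s7_rs_ne hχ).2 j l).1 h
      rw [hjl] at h3
      exact absurd h3 (by simp)
  by_cases HB : ∃ j j', j ≠ j' ∧ π j j' = true ∧ ∃ i l, π' i l = false ∧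
      ginv j i * ginv j' l ≠ ginv j l * ginv j' i
  · obtain ⟨j, j', -, hjj, i, l, hil, hne⟩ := HB
    rw [ip_act_right hbc1, ip_comm]
    refine hsq _ _ _ (nr_nonneg _) (s7_nr_rs_le π' Φ) (nr_nonneg _) (s7_nr_rs_le π Φ)
      (s7_caseA (rs π' Φ) (rs π Φ) (s7_rs_TInv π' Φ hΦ.scale) (bc ginv) (bc g)
        (mul_one_comm' hbc1) j j'
        (fun χ hχ => ((s7_rs_ne hχ).2 j j').2 hjj) i l ?_ (fun χ hχ h => ?_))
    · simp only [bc, Matrix.map_apply]
      rw [← map_mul, ← map_mul, ← map_sub]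
      intro h
      apply hne
      have h2 := (map_eq_zero_iff _ hinj).1 h
      exact sub_eq_zero.1 h2
    · have h3 := ((s7_rs_ne hχ).2 i l).1 h
      rw [hil] at h3
      exact absurd h3 (by simp)
  push Not at HA HB
  -- case (C)
  have hi : ∃ i j l, π j l = false ∧ g i j ≠ 0 ∧ g i l ≠ 0 := by
    unfold BP at hbp
    push Not at hbp
    obtain ⟨i, hi⟩ := hbp
    obtain ⟨j, hj, -⟩ := hi 0
    obtain ⟨l, hl, hl'⟩ := hi j
    exact ⟨i, j, l, by simpa using hl', hj, hl⟩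
  obtain ⟨i, j, l, hjl, hij, hil⟩ := hi
  obtain ⟨i₀, c1, c2, l', c3, c4⟩ := case_c π π' hπ hπ' g ginv hg
    (fun i i' h1 h2 j l h3 => HA i i' h1 h2 j l h3)
    (fun j j' h1 h2 i l h3 => HB j j' h1 h2 i l h3) i j l hjl hij hil
  have hC := s7_caseC Φ hΦ π (rs π' Φ) (s7_rs_TInv π' Φ hΦ.scale) (s7_nr_rs_le π' Φ)
    (bc g) (bc ginv) hbc1 i i₀ (by
      simp only [bc, Matrix.map_apply]
      rw [← map_mul]
      intro h
      exact c1 ((map_eq_zero_iff _ hinj).1 h)) c2 l' c3 (by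
      simp only [bc, Matrix.map_apply]
      intro h
      exact c4 ((map_eq_zero_iff _ hinj).1 h))
  set X := ip (rs π Φ) (fun χ => rs π' Φ (act (bc g) χ)) with hX
  have hx0 : 0 < Real.sqrt (Real.sqrt (qq k)) :=
    Real.sqrt_pos.2 (Real.sqrt_pos.2 (by linarith))
  have hxε : 4 * (2 * L + 4) / Real.sqrt (Real.sqrt (qq k)) ≤ ε ^ 4 := by
    rw [div_le_iff₀ hx0]
    have h1 : 4 * (2 * L + 4) / ε ^ 4 ≤ Real.sqrt (Real.sqrt (qq k)) := by
      apply Real.le_sqrt_of_sq_le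
      apply Real.le_sqrt_of_sq_le
      have h2 : ((4 * (2 * L + 4) / ε ^ 4) ^ 2) ^ 2 = (4 * (2 * L + 4) / ε ^ 4) ^ 4 := by ring
      rw [h2]
      have h3 : 0 ≤ 2 / ε ^ 2 := by positivity
      linarith
    rw [div_le_iff₀ (by positivity)] at h1
    linarith
  have h4 : X ^ 4 ≤ (ε * nr Φ) ^ 4 := by
    refine hC.trans ?_
    rw [mul_pow]
    exact mul_le_mul_of_nonneg_right hxε (by positivity)
  have h5 : |X| ^ 4 ≤ (ε * nr Φ) ^ 4 := by
    have h6 : |X| ^ 4 = X ^ 4 := by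
      have : Even 4 := ⟨2, rfl⟩
      exact this.pow_abs X
    rw [h6]
    exact h4
  exact le_of_pow_le_pow_left₀ (by norm_num) hεn h5

end

end PL
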