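import Pool.Agent.Helper91.PL.Defs2
import Pool.Agent.Helper91.PL.A1
import Pool.Agent.Helper91.PL.P2
import Pool.Agent.Helper91.PL.S11
import Pool.Agent.Helper91.PL.P1

/-!
# MP_bae8ce_ag : module P3 (the spanning theorem)
-/

set_option autoImplicit false
set_option linter.unusedSectionVars false

open Finset

namespace PL

noncomputable section


/-- A multilinear form which vanishes on a set of tuples vanishes on the span. -/
theorem p3_span {n : ℕ} {U : Type*} {W : Type*} [AddCommGroup U] [Module ℚ U] [AddCommGroup W]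
    [Module ℚ W] (φ : MultilinearMap ℚ (fun _ : Fin n => U) W) (s : Set U)
    (h : ∀ v : Fin n → U, (∀ i, v i ∈ s) → φ v = 0) (v : Fin n → U)
    (hv : ∀ i, v i ∈ Submodule.span ℚ s) : φ v = 0 := by
  have key : ∀ (T : Finset (Fin n)) (v : Fin n → U), (∀ i ∈ T, v i ∈ Submodule.span ℚ s) →
      (∀ i, i ∉ T → v i ∈ s) → φ v = 0 := by
    intro T
    induction T using Finset.induction_on with
    | empty =>
      intro v _ h2
      exact h v fun i => h2 i (Finset.notMem_empty i)
    | insert a T ha ih =>
      intro v h1 h2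
      have h3 : Submodule.span ℚ s ≤ LinearMap.ker (φ.toLinearMap v a) := by
        refine Submodule.span_le.2 fun x hx => ?_
        rw [SetLike.mem_coe, LinearMap.mem_ker, MultilinearMap.toLinearMap_apply]
        apply ih
        · intro i hi
          have : i ≠ a := fun h => ha (h ▸ hi)
          rw [Function.update_of_ne this]
          exact h1 i (Finset.mem_insert_of_mem hi)
        · intro i hi
          by_cases hia : i = a
          · subst hia
            rw [Function.update_self]
            exact hx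
          · rw [Function.update_of_ne hia]
            apply h2
            rw [Finset.mem_insert]
            rintro (h | h)
            · exact hia h
            · exact hi h
      have h4 := h3 (h1 a (Finset.mem_insert_self a T))
      rw [LinearMap.mem_ker, MultilinearMap.toLinearMap_apply, Function.update_eq_self] at h4
      exact h4
  exact key Finset.univ v (fun i _ => hv i) fun i hi => absurd (Finset.mem_univ i) hi

/-- The finite subfields. -/
theorem p3_field (p : ℕ) [Fact p.Prime] (F : Type) [Field F] [CharP F p] [IsAlgClosed F]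
    (m : ℕ) (hm : 0 < m) :
    ∃ K : Subfield F, (∀ x, x ∈ K ↔ x ^ p ^ m = x) ∧ Finite K ∧ Nat.card K = p ^ m := by
  classical
  have hp : p.Prime := Fact.out
  have hQ : p ^ m ≠ 0 := pow_ne_zero _ hp.ne_zero
  have hQ1 : 1 < p ^ m := Nat.one_lt_pow hm.ne' hp.one_lt
  let K : Subfield F :=
    { carrier := {x | x ^ p ^ m = x}
      mul_mem' := by
        intro a b ha hb
        simp only [Set.mem_ofPred_eq] at ha hb ⊢
        rw [mul_pow, ha, hb]
      one_mem' := one_pow _
      add_mem' := by
        intro a b ha hb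
        simp only [Set.mem_ofPred_eq] at ha hb ⊢
        rw [add_pow_char_pow, ha, hb]
      zero_mem' := zero_pow hQ
      neg_mem' := by
        intro a ha
        simp only [Set.mem_ofPred_eq] at ha ⊢
        rw [← zero_sub, sub_pow_char_pow, ha, zero_pow hQ]
      inv_mem' := by
        intro a ha
        simp only [Set.mem_ofPred_eq] at ha ⊢
        rw [inv_pow, ha] }
  refine ⟨K, fun x => Iff.rfl, ?_⟩
  set P : Polynomial F := Polynomial.X ^ p ^ m - Polynomial.X with hP
  have hPs : P.Separable := galois_poly_separable p _ (dvd_pow_self _ hm.ne')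
  have hP0 : P ≠ 0 := FiniteField.X_pow_card_pow_sub_X_ne_zero F hm.ne' hp.one_lt
  have hdeg : P.natDegree = p ^ m :=
    FiniteField.X_pow_card_pow_sub_X_natDegree_eq F hm.ne' hp.one_lt
  have hcard := Polynomial.card_rootSet_eq_natDegree (K := F) hPs (IsAlgClosed.splits _)
  have hKP : (K : Set F) = P.rootSet F := by
    ext x
    rw [Polynomial.mem_rootSet, and_iff_right hP0]
    rw [hP]
    simp only [map_sub, map_pow, Polynomial.aeval_X, sub_eq_zero]
    exact Iff.rfl
  have e : K ≃ P.rootSet F := Equiv.setCongr hKP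
  refine ⟨Finite.of_equiv _ e.symm, ?_⟩
  rw [Nat.card_congr e, Nat.card_eq_fintype_card, hcard, hdeg]

section

variable {F : Type} [Field F]

theorem p3_lg_C (p : ℕ) [Fact p.Prime] (hF : ∀ x : F, ∃ m, 0 < m ∧ x ^ p ^ m = x) (c : F) :
    lg (RatFunc.C c : RatFunc F) = 0 := by
  obtain ⟨m, hm, hc⟩ := hF c
  have h1 : 1 < p ^ m := Nat.one_lt_pow hm.ne' (Fact.out : p.Prime).one_lt
  apply lg_eq_zero (m := p ^ m) h1
  rw [← map_pow, hc]

/-- `V (F(t))` is spanned by the classes of `t + α`. -/
theorem p3_span_top (p : ℕ) [Fact p.Prime] [IsAlgClosed F]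
    (hF : ∀ x : F, ∃ m, 0 < m ∧ x ^ p ^ m = x) :
    Submodule.span ℚ (Set.range fun α : F => lg (RatFunc.X + RatFunc.C α : RatFunc F)) = ⊤ := by
  rw [eq_top_iff, ← span_lg]
  set S := Submodule.span ℚ (Set.range fun α : F => lg (RatFunc.X + RatFunc.C α : RatFunc F))
    with hS
  have hpoly : ∀ P : Polynomial F, lg (algebraMap (Polynomial F) (RatFunc F) P) ∈ S := by
    intro P
    have hsp : P.Splits := IsAlgClosed.splits P
    unfold Polynomial.Splits at hsp
    induction hsp using Submonoid.closure_induction with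
    | mem x hx =>
      rcases hx with ⟨a, rfl⟩ | ⟨a, rfl⟩
      · rw [RatFunc.algebraMap_C, p3_lg_C p hF]
        exact Submodule.zero_mem _
      · rw [map_add, RatFunc.algebraMap_X, RatFunc.algebraMap_C]
        exact Submodule.subset_span ⟨a, rfl⟩
    | one =>
      rw [map_one, lg_one]
      exact Submodule.zero_mem _
    | mul x y _ _ hx hy =>
      rw [map_mul]
      by_cases hx0 : algebraMap (Polynomial F) (RatFunc F) x = 0
      · rw [hx0, zero_mul, lg_zero]
        exact Submodule.zero_mem _
      by_cases hy0 : algebraMap (Polynomial F) (RatFunc F) y = 0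
      · rw [hy0, mul_zero, lg_zero]
        exact Submodule.zero_mem _
      rw [lg_mul hx0 hy0]
      exact Submodule.add_mem _ hx hy
  refine Submodule.span_le.2 ?_
  rintro _ ⟨f, rfl⟩
  by_cases hf : f = 0
  · rw [hf, lg_zero]
    exact Submodule.zero_mem _
  have hn : algebraMap (Polynomial F) (RatFunc F) f.num ≠ 0 :=
    RatFunc.algebraMap_ne_zero (RatFunc.num_ne_zero hf)
  have hd : (algebraMap (Polynomial F) (RatFunc F) f.denom)⁻¹ ≠ 0 :=
    inv_ne_zero (RatFunc.algebraMap_ne_zero (RatFunc.denom_ne_zero f))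
  rw [← RatFunc.num_div_denom f, div_eq_mul_inv, lg_mul hn hd, lg_inv]
  exact Submodule.add_mem _ (hpoly _) (Submodule.neg_mem _ (hpoly _))

end

section

variable {k : Type} [Field k] [Fintype k] [DecidableEq k] {F : Type} [Field F] [Algebra k F]

theorem p3_lg_eq (a : k) : lg (RatFunc.X + RatFunc.C (algebraMap k F a) : RatFunc F) =
    bar F ((1 : k), a) - bar F ((0 : k), (1 : k)) := by
  have h1 : ((1 : k), a) ≠ 0 := by
    intro h
    exact one_ne_zero (Prod.ext_iff.1 h).1
  have h2 : ((0 : k), (1 : k)) ≠ 0 := by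
    intro h
    exact one_ne_zero (Prod.ext_iff.1 h).2
  have h3 : el F ((1 : k), a) = RatFunc.X + RatFunc.C (algebraMap k F a) := by
    simp [el]
  have h4 : el F ((0 : k), (1 : k)) = 1 := by
    simp [el]
  rw [bar, bar, if_neg h1, if_neg h2, h3, h4, lg_one]
  abel

/-- If all `Phi` vanish then the form vanishes on the tuples of linear polynomials over `k`. -/
theorem p3_vanish {r : ℕ} (φ : MultilinearMap ℚ (fun _ : Fin (r + 2) => V (RatFunc F)) ℚ)
    (h : ∀ χ : Tup (r + 2) k, Phi φ χ = 0) (a : Fin (r + 2) → k) :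
    φ (fun i => lg (RatFunc.X + RatFunc.C (algebraMap k F (a i)) : RatFunc F)) = 0 := by
  apply p3_span φ (Set.range fun x : k × k => bar F x)
  · intro v hv
    choose χ hχ using hv
    have h1 := h χ
    unfold Phi at h1
    have h2 : (φ fun i => bar F (χ i)) = 0 := by exact_mod_cast h1
    rw [← h2]
    congr 1
    funext i
    exact (hχ i).symm
  · intro i
    rw [p3_lg_eq]
    exact Submodule.sub_mem _ (Submodule.subset_span ⟨_, rfl⟩) (Submodule.subset_span ⟨_, rfl⟩)

end

section P

variable {k : Type} [Field k] [Fintype k] [DecidableEq k]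

variable {F : Type} [Field F] [Algebra k F]

theorem p3_linear (p : ℕ) [Fact p.Prime] {F : Type} [Field F] [CharP F p] [IsAlgClosed F]
    (hF : ∀ x : F, ∃ m, 0 < m ∧ x ^ p ^ m = x) (r : ℕ)
    (φ : MultilinearMap ℚ (fun _ : Fin (r + 2) => V (RatFunc F)) ℚ) (hφ : Adm φ)
    (hz : ∀ f : RatFunc F, f ≠ 0 → f ≠ 1 → φ (Fin.cons (lg (1 - f)) fun _ => lg f) = 0)
    (α : Fin (r + 2) → F) :
    φ (fun i => lg (RatFunc.X + RatFunc.C (α i) : RatFunc F)) = 0 := by
  classical
  obtain ⟨Q₀, hQ₀⟩ := vanish p r
  choose m hm hα using fun i => hF (α i)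
  set M : ℕ := (∏ i, m i) * (Q₀ + 1) with hM
  have hM0 : 0 < M := Nat.mul_pos (Finset.prod_pos fun i _ => hm i) (Nat.succ_pos _)
  obtain ⟨K, hK, hfin, hcard⟩ := p3_field p F M hM0
  have hmem : ∀ i, α i ∈ K := by
    intro i
    rw [hK]
    have h1 : m i ∣ M := (Finset.dvd_prod_of_mem m (Finset.mem_univ i)).mul_right _
    obtain ⟨c, hc⟩ := h1
    rw [hc]
    have h2 : ∀ c : ℕ, (α i) ^ p ^ (m i * c) = α i := by
      intro c
      induction c with
      | zero => rw [mul_zero, pow_zero, pow_one]
      | succ c ih => rw [mul_add, mul_one, pow_add, pow_mul, ih, hα]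
    exact h2 c
  let _ : Fintype K := Fintype.ofFinite K
  have : CharP K p := (algebraMap K F).charP (algebraMap K F).injective p
  let _ : Algebra (ZMod p) K := ZMod.algebra K p
  have hle : Q₀ ≤ Fintype.card K := by
    rw [← Nat.card_eq_fintype_card, hcard]
    have h1 : Q₀ < M := by
      have h2 : 1 ≤ ∏ i, m i := Finset.prod_pos fun i _ => hm i
      calc Q₀ < 1 * (Q₀ + 1) := by omega
        _ ≤ M := Nat.mul_le_mul_right _ h2
    exact (h1.trans (Nat.lt_pow_self (Fact.out : p.Prime).one_lt)).le
  have h1 := hQ₀ K hle (Phi (k := K) φ) (Phi_adm φ hφ) (Phi_pencil p φ hφ hz)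
  exact p3_vanish φ h1 fun i => ⟨α i, hmem i⟩

/-! ## P3 : the spanning theorem -/

omit [Algebra k F] in
theorem spanning (p : ℕ) [Fact p.Prime] [CharP F p] [IsAlgClosed F]
    (hF : ∀ x : F, ∃ m, 0 < m ∧ x ^ p ^ m = x) (r : ℕ)
    (φ : MultilinearMap ℚ (fun _ : Fin (r + 2) => V (RatFunc F)) ℚ) (hφ : Adm φ)
    (hz : ∀ f : RatFunc F, f ≠ 0 → f ≠ 1 → φ (Fin.cons (lg (1 - f)) fun _ => lg f) = 0) :
    φ = 0 := by
  ext v
  rw [zero_apply]
  apply p3_span φ (Set.range fun α : F => lg (RatFunc.X + RatFunc.C α : RatFunc F))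
  · intro v hv
    choose α hα using hv
    rw [← p3_linear p hF r φ hφ hz α]
    congr 1
    funext i
    exact (hα i).symm
  · intro i
    rw [p3_span_top p hF]
    exact Submodule.mem_top

end P

end

end PL
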