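import Mathlib

/-!
# MP_bae8ce_ag : polylogarithmic motivic complexes, rational version

All groups are tensored with `ℚ` from the start.  `V F` is `F^* ⊗ ℚ` (written additively),
`ZP F` is the `ℚ`-vector space on the symbols `{x}`, `x ∈ P^1(F)`, `none` being the point
at infinity, `R k F` is the subspace `𝓡_k(F) ⊗ ℚ` for `k ≥ 2`.
-/

set_option autoImplicit false

open scoped TensorProduct

namespace PL

noncomputable section

universe u

/-- The group `F^* ⊗ ℚ`, written additively. -/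
abbrev V (F : Type u) [Field F] : Type u := ℚ ⊗[ℤ] Additive Fˣ

open Classical in
/-- The class of `x` in `F^* ⊗ ℚ` (and `0` for `x = 0`). -/
def lg {F : Type u} [Field F] (x : F) : V F :=
  if h : x = 0 then 0 else (1 : ℚ) ⊗ₜ[ℤ] Additive.ofMul (Units.mk0 x h)

/-- The projective line; `none` is the point at infinity. -/
abbrev P1 (F : Type u) : Type u := Option F

/-- The vector space `ℚ[P^1(F)]`. -/
abbrev ZP (F : Type u) : Type u := P1 F →₀ ℚ

/-- The class of `x` in `F^* ⊗ ℚ`, and `0` for `x = 0, ∞`. -/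
def cl {F : Type u} [Field F] : P1 F → V F
  | none => 0
  | some x => lg x

/-- The class of `1 - x` in `F^* ⊗ ℚ`, and `0` for `x = 1, ∞`. -/
def cl1 {F : Type u} [Field F] : P1 F → V F
  | none => 0
  | some x => lg (1 - x)

/-- The exterior power `Λ^j(F^* ⊗ ℚ)`. -/
def W (F : Type u) [Field F] (j : ℕ) : ModuleCat.{u} ℚ :=
  (ModuleCat.of ℚ (V F)).exteriorPower j

/-- The map `(v_1, …, v_j) ↦ v_1 ∧ … ∧ v_j`. -/
def pr (F : Type u) [Field F] (j : ℕ) : V F [⋀^Fin j]→ₗ[ℚ] W F j := exteriorPower.ιMulti ℚ j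

/-- The map `{x} ↦ (1 - x) ∧ x`, with `{0}, {1}, {∞} ↦ 0`. -/
def δ2 (F : Type u) [Field F] : ZP F →ₗ[ℚ] W F 2 :=
  Finsupp.linearCombination ℚ fun x => pr F 2 ![cl1 x, cl x]

/-- The space `(ℚ[P^1(F)] / S) ⊗ F^*`. -/
def QV (F : Type u) [Field F] (S : Submodule ℚ (ZP F)) : ModuleCat.{u} ℚ :=
  ModuleCat.of ℚ ((ZP F ⧸ S) ⊗[ℚ] V F)

/-- The map `{x} ↦ {x} ⊗ x` to `(ℚ[P^1(F)] / S) ⊗ F^*`, with `{0}, {1}, {∞} ↦ 0`. -/
def δ {F : Type u} [Field F] (S : Submodule ℚ (ZP F)) : ZP F →ₗ[ℚ] QV F S :=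
  Finsupp.linearCombination ℚ fun x => S.mkQ (Finsupp.single x 1) ⊗ₜ[ℚ] cl x

/-- The value of a rational function (an element of `P^1(F(t))`) at `a ∈ F`. -/
def val {F : Type u} [Field F] (a : F) : P1 (RatFunc F) → P1 F
  | none => none
  | some f => open Classical in
      if f.denom.eval a = 0 then none else some (f.num.eval a / f.denom.eval a)

/-- Specialisation `ℚ[P^1(F(t))] → ℚ[P^1(F)]` at `t = a`. -/
def spec {F : Type u} [Field F] (a : F) : ZP (RatFunc F) →ₗ[ℚ] ZP F :=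
  Finsupp.lmapDomain ℚ ℚ (val a)

/-- The subspace generated by `{0}`, `{∞}` and all `α(0) - α(1)`, `α ∈ A`. -/
def Rgen (F : Type u) [Field F] (A : Submodule ℚ (ZP (RatFunc F))) : Submodule ℚ (ZP F) :=
  Submodule.span ℚ {Finsupp.single (some 0) 1, Finsupp.single none 1} ⊔
    A.map (spec 0 - spec 1)

/-- The subspace `𝓡_k(F)` for `k ≥ 2` (for `k ≤ 1` a value which is not used), defined by
recursion on `k` for all fields at once: `α` runs through `𝓐_k(F(t)) = ker δ_k`. -/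
def R : ℕ → ∀ (F : Type u) [Field F], Submodule ℚ (ZP F)
  | 0, _, _ => ⊤
  | 1, _, _ => ⊤
  | 2, F, _ => Rgen F (LinearMap.ker (δ2 (RatFunc F)))
  | (k + 3), F, _ => Rgen F (LinearMap.ker (δ (R (k + 2) (RatFunc F))))

/-- The space `𝓑_k(F)`, `k ≥ 2`. -/
abbrev B (k : ℕ) (F : Type u) [Field F] : Type u := ZP F ⧸ R k F

/-- The class `{x}_k`. -/
def sym (k : ℕ) {F : Type u} [Field F] (x : P1 F) : B k F :=
  (R k F).mkQ (Finsupp.single x 1)

/-- The map `λ ↦ v ∧ λ`. -/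
def wdg (F : Type u) [Field F] (j : ℕ) (v : V F) : W F j →ₗ[ℚ] W F (j + 1) :=
  (ModuleCat.exteriorPower.desc (M := ModuleCat.of ℚ (V F)) (N := W F (j + 1)) (n := j)
    ((pr F (j + 1)).curryLeft v)).hom

/-- The terms of the complexes: `Γ F k j` is the term of `Γ(F, n)`, `n = k + j`, in degree
`j + 1`: it is `𝓑_k(F) ⊗ Λ^j F^*` for `k ≥ 2`, `Λ^n F^*` for `k = 1`, and `0` for `k = 0`. -/
def Γ (F : Type u) [Field F] (k j : ℕ) : ModuleCat.{u} ℚ :=
  match k with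
  | 0 => ModuleCat.of ℚ PUnit
  | 1 => W F (j + 1)
  | (q + 2) => ModuleCat.of ℚ (B (q + 2) F ⊗[ℚ] W F j)

/-- The element `{x}_k ⊗ λ`, `k = q + 2`. -/
def tm {F : Type u} [Field F] (q j : ℕ) (x : P1 F) (l : W F j) : Γ F (q + 2) j :=
  sym (q + 2) x ⊗ₜ[ℚ] l

/-- Families of linear maps `Γ F (k + 1) j → Γ F k (j + 1)`. -/
abbrev Dif (F : Type u) [Field F] : Type u := ∀ k j : ℕ, Γ F (k + 1) j →ₗ[ℚ] Γ F k (j + 1)

/-- `d` is the differential of the complexes `Γ(F, n)`: it is given by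
`{x}_k ⊗ λ ↦ {x}_{k-1} ⊗ (x ∧ λ)` for `k ≥ 3` and by `{x}_2 ⊗ λ ↦ (1 - x) ∧ x ∧ λ`. -/
structure IsDif (F : Type u) [Field F] (d : Dif F) : Prop where
  two : ∀ (j : ℕ) (x : P1 F) (l : W F j),
    d 1 j (tm 0 j x l) = wdg F (j + 1) (cl1 x) (wdg F j (cl x) l)
  three : ∀ (q j : ℕ) (x : P1 F) (l : W F j),
    d (q + 2) j (tm (q + 1) j x l) = tm q (j + 1) x (wdg F j (cl x) l)

/-- The sum of the terms of the complexes of the points of `X`. -/
def ΓP (F : Type u) [Field F] (X : Set (P1 F)) (k j : ℕ) : ModuleCat.{u} ℚ :=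
  ModuleCat.of ℚ (X →₀ Γ F k j)

/-- The differentials of the complexes of the points of `X`. -/
def dΓP {F : Type u} [Field F] (X : Set (P1 F)) (d' : Dif F) (k j : ℕ) :
    ΓP F X (k + 1) j →ₗ[ℚ] ΓP F X k (j + 1) :=
  Finsupp.mapRange.linearMap (d' k j)

/-- The terms of the complexes of the open curve `X ⊆ P^1` over `F`: for `k + j = n` it is the
sum of the term of `Γ(F(t), n)` in degree `i = j + 1` and of the terms of the complexes
`Γ(F, n - 1)` in degree `i - 2`, one for each closed point of `X`. -/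
def ΓX (F : Type u) [Field F] (X : Set (P1 F)) (k j : ℕ) : ModuleCat.{u} ℚ :=
  match j with
  | 0 => Γ (RatFunc F) k 0
  | 1 => Γ (RatFunc F) k 1
  | (j' + 2) => ModuleCat.of ℚ (Γ (RatFunc F) k (j' + 2) × ΓP F X (k + 1) j')

/-- A family of residue maps `Γ(F(t), n)^{i} → ⊕ Γ(F, n - 1)^{i - 1}`. -/
abbrev Res (F : Type u) [Field F] (X : Set (P1 F)) : Type u :=
  ∀ k j : ℕ, Γ (RatFunc F) k (j + 1) →ₗ[ℚ] ΓP F X k j

/-- The differential of the total complex: `(a, b) ↦ (d a, ∂ a - d b)`. -/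
def dΓX {F : Type u} [Field F] {X : Set (P1 F)} (d : Dif (RatFunc F)) (d' : Dif F)
    (r : Res F X) (k j : ℕ) : ΓX F X (k + 1) j → ΓX F X k (j + 1) :=
  match j with
  | 0 => fun a => d k 0 a
  | 1 => fun a => (d k 1 a, r (k + 1) 0 a)
  | (j' + 2) => fun a =>
      (d k (j' + 2) a.1, r (k + 1) (j' + 1) a.1 - dΓP X d' (k + 1) j' a.2)

/-- All cohomology groups of the complexes `Γ(X, n) ⊗ ℚ`, `n ≥ 2`, are zero (in the degrees `1`,
`2, …, n` and `n + 1`). -/
structure Acyclic {F : Type u} [Field F] {X : Set (P1 F)} (d : Dif (RatFunc F)) (d' : Dif F)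
    (r : Res F X) : Prop where
  inj : ∀ k, 1 ≤ k → Function.Injective (dΓX d d' r k 0)
  exact : ∀ k j, Function.Exact (dΓX d d' r (k + 1) j) (dΓX d d' r k (j + 1))
  surj : ∀ j, Function.Surjective (dΓX d d' r 0 (j + 1))

end

end PL
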