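import Pool.Agent.Helper91.PL.Defs

/-!
# MP_bae8ce_ag : the definitions with plain exterior powers (used in the proofs)
-/

set_option autoImplicit false

open scoped TensorProduct

namespace PL

noncomputable section

universe u

/-- The map `{x} ↦ (1 - x) ∧ x`, with `{0}, {1}, {∞} ↦ 0`. -/
def δ2o (F : Type u) [Field F] : ZP F →ₗ[ℚ] ⋀[ℚ]^2 (V F) :=
  Finsupp.linearCombination ℚ fun x => exteriorPower.ιMulti ℚ 2 ![cl1 x, cl x]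

/-- The map `{x} ↦ {x} ⊗ x` to `(ℚ[P^1(F)] / S) ⊗ F^*`, with `{0}, {1}, {∞} ↦ 0`. -/
def δo {F : Type u} [Field F] (S : Submodule ℚ (ZP F)) : ZP F →ₗ[ℚ] (ZP F ⧸ S) ⊗[ℚ] V F :=
  Finsupp.linearCombination ℚ fun x => S.mkQ (Finsupp.single x 1) ⊗ₜ[ℚ] cl x

theorem ker_δo {F : Type u} [Field F] (S : Submodule ℚ (ZP F)) :
    LinearMap.ker (δ S) = LinearMap.ker (δo S) := rfl

theorem ker_δ2o (F : Type u) [Field F] : LinearMap.ker (δ2 F) = LinearMap.ker (δ2o F) := rfl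

/-- The map `v ↦ (λ ↦ v ∧ λ)`. -/
def wedge (F : Type u) [Field F] (j : ℕ) :
    V F →ₗ[ℚ] ⋀[ℚ]^j (V F) →ₗ[ℚ] ⋀[ℚ]^(j + 1) (V F) :=
  (exteriorPower.alternatingMapLinearEquiv (R := ℚ) (M := V F) (N := ⋀[ℚ]^(j + 1) (V F))
    (n := j)).toLinearMap ∘ₗ (exteriorPower.ιMulti ℚ (j + 1)).curryLeft

open Classical in
/-- The map induced by `f` on a quotient, if `f` is compatible with it (otherwise `0`). -/
def descend {M N : Type u} [AddCommGroup M] [Module ℚ M] [AddCommGroup N] [Module ℚ N]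
    (S : Submodule ℚ M) (f : M →ₗ[ℚ] N) : (M ⧸ S) →ₗ[ℚ] N :=
  if h : S ≤ LinearMap.ker f then S.liftQ f h else 0

/-- `{x} ↦ (λ ↦ (1 - x) ∧ x ∧ λ)`. -/
def pre2 (F : Type u) [Field F] (j : ℕ) :
    ZP F →ₗ[ℚ] ⋀[ℚ]^j (V F) →ₗ[ℚ] ⋀[ℚ]^(j + 2) (V F) :=
  Finsupp.linearCombination ℚ fun x => wedge F (j + 1) (cl1 x) ∘ₗ wedge F j (cl x)

/-- `{x} ↦ (λ ↦ {x}_{k-1} ⊗ (x ∧ λ))`, for `k = q + 3`. -/
def pre3 (F : Type u) [Field F] (q j : ℕ) :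
    ZP F →ₗ[ℚ] ⋀[ℚ]^j (V F) →ₗ[ℚ] B (q + 2) F ⊗[ℚ] ⋀[ℚ]^(j + 1) (V F) :=
  Finsupp.linearCombination ℚ fun x =>
    (TensorProduct.mk ℚ (B (q + 2) F) (⋀[ℚ]^(j + 1) (V F)) (sym (q + 2) x)) ∘ₗ wedge F j (cl x)

/-- The terms of the complexes: `T F k j` is the term of `Γ(F, n)`, `n = k + j`, in degree
`j + 1`: it is `𝓑_k(F) ⊗ Λ^j F^*` for `k ≥ 2`, `Λ^n F^*` for `k = 1`, and `0` for `k = 0`. -/
def T (F : Type u) [Field F] (k j : ℕ) : ModuleCat.{u} ℚ :=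
  match k with
  | 0 => ModuleCat.of ℚ PUnit
  | 1 => ModuleCat.of ℚ (⋀[ℚ]^(j + 1) (V F))
  | (q + 2) => ModuleCat.of ℚ (B (q + 2) F ⊗[ℚ] ⋀[ℚ]^j (V F))

/-- The differential `T F (k + 1) j → T F k (j + 1)` of `Γ(F, k + 1 + j)`, given by
`{x}_p ⊗ λ ↦ {x}_{p-1} ⊗ (x ∧ λ)` for `p ≥ 3` and `{x}_2 ⊗ λ ↦ (1 - x) ∧ x ∧ λ`. -/
def d (F : Type u) [Field F] (k j : ℕ) : T F (k + 1) j →ₗ[ℚ] T F k (j + 1) :=
  match k with
  | 0 => 0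
  | 1 => TensorProduct.lift (descend (R 2 F) (pre2 F j))
  | (q + 2) => TensorProduct.lift (descend (R (q + 3) F) (pre3 F q j))


end

end PL
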