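import Pool.Agent.Helper91.PL.SBasic
import Pool.Agent.Helper91.PL.DefsOld

/-!
# MP_bae8ce_ag : auxiliary definitions
-/

set_option autoImplicit false

open Finset

namespace PL

noncomputable section

universe u

section

variable {F : Type u} [Field F] {G : Type u} [Field G]

/-- `Sy φ x = φ(1 - x, x, x, …) - φ(x, 1 - x, x, …)`. -/
def Sy {q : ℕ} (φ : MultilinearMap ℚ (fun _ : Fin (q + 2) => V F) ℚ) (x : P1 F) : ℚ :=
  φ (Fin.cons (cl1 x) fun _ => cl x) - φ (Fin.cons (cl x) (Fin.cons (cl1 x) fun _ => cl x))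

/-- The kernel of the total symbol in weight `q + 2`. -/
def NN (q : ℕ) (F : Type u) [Field F] : Submodule ℚ (ZP F) :=
  ⨅ φ : MultilinearMap ℚ (fun _ : Fin (q + 2) => V F) ℚ,
    LinearMap.ker (Finsupp.linearCombination ℚ (Sy φ))

/-- Functoriality of `ℚ[P^1(F)]`. -/
def mapP (σ : F →+* G) : ZP F →ₗ[ℚ] ZP G := Finsupp.lmapDomain ℚ ℚ (Option.map σ)

/-- Towers of rational function fields over an algebraic extension of `𝔽_p`. -/
inductive Tow (p : ℕ) : (F : Type u) → Field F → Prop
  | base (F : Type u) (inst : Field F) (hp : CharP F p)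
      (h : ∀ x : F, ∃ m, 0 < m ∧ x ^ p ^ m = x) : Tow p F inst
  | step (F : Type u) (inst : Field F) : Tow p F inst →
      Tow p (@RatFunc F _) (@RatFunc.instField F _ _)

end

/-- Forms which are symmetric in all variables but the first, and vanish on the diagonal. -/
structure Adm {U : Type*} {W : Type*} [AddCommGroup U] [Module ℚ U] [AddCommGroup W]
    [Module ℚ W] {q : ℕ} (M : MultilinearMap ℚ (fun _ : Fin (q + 2) => U) W) : Prop where
  symm : ∀ σ : Equiv.Perm (Fin (q + 2)), σ 0 = 0 → ∀ x, M (x ∘ σ) = M x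
  diag : ∀ x, M (fun _ => x) = 0

/-- The linear form `x_1 t + x_2`. -/
def el {k : Type} [Field k] (F : Type) [Field F] [Algebra k F] (x : k × k) : RatFunc F :=
  RatFunc.C (algebraMap k F x.1) * RatFunc.X + RatFunc.C (algebraMap k F x.2)

/-- The average of all linear forms over `k`. -/
def del (k : Type) [Field k] [Fintype k] [DecidableEq k] (F : Type) [Field F] [Algebra k F] :
    V (RatFunc F) :=
  ((Fintype.card k : ℚ) ^ 2 - 1)⁻¹ • ∑ y ∈ univ.erase (0 : k × k), lg (el F y)

/-- The normalised class of a vector. -/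
def bar {k : Type} [Field k] [Fintype k] [DecidableEq k] (F : Type) [Field F] [Algebra k F]
    (x : k × k) : V (RatFunc F) :=
  if x = 0 then 0 else lg (el F x) - del k F

/-- The function on tuples defined by a multilinear form. -/
def Phi {k : Type} [Field k] [Fintype k] [DecidableEq k] {F : Type} [Field F] [Algebra k F]
    {r : ℕ} (φ : MultilinearMap ℚ (fun _ : Fin (r + 2) => V (RatFunc F)) ℚ)
    (χ : Tup (r + 2) k) : ℝ :=
  ((φ fun i => bar F (χ i) : ℚ) : ℝ)

end

end PL
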