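import Pool.Agent.Helper91.PL.SDefs

/-!
# MP_bae8ce_ag : basic lemmas on functions on tuples
-/

set_option autoImplicit false
set_option linter.unusedSectionVars false

open Finset

namespace PL

noncomputable section

variable {k : Type} [Field k] [Fintype k] [DecidableEq k] {N : ℕ}

theorem act_mul (A B : Matrix (Fin N) (Fin N) k) (χ : Tup N k) :
    act (A * B) χ = act A (act B χ) := by
  funext i
  simp only [act, Matrix.mul_apply, Finset.sum_smul, Finset.smul_sum, mul_smul]
  rw [Finset.sum_comm]

theorem act_one (χ : Tup N k) : act (1 : Matrix (Fin N) (Fin N) k) χ = χ := by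
  funext i
  simp only [act, Matrix.one_apply, ite_smul, one_smul, zero_smul, Finset.sum_ite_eq,
    Finset.mem_univ, if_true]

theorem act_inv {A B : Matrix (Fin N) (Fin N) k} (h : A * B = 1) (χ : Tup N k) :
    act A (act B χ) = χ := by
  rw [← act_mul, h, act_one]

/-- The bijection of tuples defined by an invertible matrix. -/
def actEquiv (A B : Matrix (Fin N) (Fin N) k) (h : A * B = 1) (h' : B * A = 1) :
    Tup N k ≃ Tup N k where
  toFun := act A
  invFun := act B
  left_inv := fun χ => act_inv h' χ
  right_inv := fun χ => act_inv h χ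

theorem sum_act {A B : Matrix (Fin N) (Fin N) k} (h : A * B = 1) (h' : B * A = 1)
    (F : Tup N k → ℝ) : ∑ χ, F (act A χ) = ∑ χ, F χ :=
  Equiv.sum_comp (actEquiv A B h h') F

theorem mul_one_comm' {A B : Matrix (Fin N) (Fin N) k} (h : A * B = 1) : B * A = 1 :=
  mul_eq_one_comm.1 h

theorem ip_comm (f h : Tup N k → ℝ) : ip f h = ip h f := by
  unfold ip
  exact Finset.sum_congr rfl fun χ _ => mul_comm _ _

theorem ip_self (f : Tup N k → ℝ) : ip f f = nr f := by
  unfold ip nr
  exact Finset.sum_congr rfl fun χ _ => (sq _).symm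

theorem nr_nonneg (f : Tup N k → ℝ) : 0 ≤ nr f := Finset.sum_nonneg fun _ _ => sq_nonneg _

/-- Cauchy-Schwarz. -/
theorem ip_sq_le (f h : Tup N k → ℝ) : ip f h ^ 2 ≤ nr f * nr h :=
  Finset.sum_mul_sq_le_sq_mul_sq _ _ _

theorem abs_ip_le (f h : Tup N k → ℝ) : |ip f h| ≤ Real.sqrt (nr f) * Real.sqrt (nr h) := by
  rw [← Real.sqrt_mul (nr_nonneg f)]
  apply Real.le_sqrt_of_sq_le
  rw [sq_abs]
  exact ip_sq_le f h

theorem nr_act {A B : Matrix (Fin N) (Fin N) k} (h : A * B = 1) (f : Tup N k → ℝ) :
    nr (fun χ => f (act A χ)) = nr f :=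
  sum_act h (mul_one_comm' h) fun χ => f χ ^ 2

theorem ip_act {A B : Matrix (Fin N) (Fin N) k} (h : A * B = 1) (f g : Tup N k → ℝ) :
    ip (fun χ => f (act A χ)) (fun χ => g (act A χ)) = ip f g :=
  sum_act h (mul_one_comm' h) fun χ => f χ * g χ

/-- Moving a matrix to the other side. -/
theorem ip_act_right {A B : Matrix (Fin N) (Fin N) k} (h : A * B = 1) (f g : Tup N k → ℝ) :
    ip f (fun χ => g (act A χ)) = ip (fun χ => f (act B χ)) g := by
  have h1 := ip_act h (fun χ => f (act B χ)) g
  rw [← h1]
  congr 1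
  funext χ
  rw [act_inv (mul_one_comm' h)]

theorem act_dg (i : Fin N) (s : k) (χ : Tup N k) :
    act (dg i s) χ = fun j => Function.update (fun _ => (1 : k)) i s j • χ j := by
  funext j
  simp only [act, dg, Matrix.diagonal_apply, ite_smul, zero_smul, Finset.sum_ite_eq,
    Finset.mem_univ, if_true]

theorem dg_mul (i : Fin N) (s t : k) : dg (N := N) i s * dg i t = dg i (s * t) := by
  unfold dg
  rw [Matrix.diagonal_mul_diagonal]
  congr 1
  funext j
  by_cases h : j = i
  · subst h
    simp
  · simp [h]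

theorem dg_one (i : Fin N) : dg (N := N) i (1 : k) = 1 := by
  unfold dg
  rw [Function.update_eq_self_iff.2 rfl]
  exact Matrix.diagonal_one

theorem TInv.act_dg {f : Tup N k → ℝ} (h : TInv f) (i : Fin N) {s : k} (hs : s ≠ 0)
    (χ : Tup N k) : f (act (dg i s) χ) = f χ := by
  rw [PL.act_dg]
  apply h
  intro j
  by_cases hj : j = i
  · subst hj
    simpa using hs
  · simp [hj]

theorem act_rk1 (u v : Fin N → k) (c : k) (χ : Tup N k) :
    act (rk1 u v c) χ = fun i => χ i + (c * u i) • ∑ j, v j • χ j := by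
  funext i
  simp only [act, rk1, add_smul, ite_smul, one_smul, zero_smul, Finset.sum_add_distrib,
    Finset.sum_ite_eq, Finset.mem_univ, if_true, Finset.smul_sum, smul_smul]
  congr 1
  exact Finset.sum_congr rfl fun j _ => by rw [mul_assoc]

theorem act_up (i : Fin N) (w : Fin N → k) (r : k) (χ : Tup N k) :
    act (up i w r) χ = Function.update χ i (χ i + r • ∑ j, w j • χ j) := by
  unfold up
  rw [act_rk1]
  funext j
  by_cases hj : j = i
  · subst hj
    simp
  · simp [hj]

theorem rk1_mul (u v : Fin N → k) (huv : ∑ i, u i * v i = 1) (s t : k) :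
    rk1 u v (s - 1) * rk1 u v (t - 1) = rk1 u v (s * t - 1) := by
  ext i j
  have h1 : ∑ l, v l * u l = 1 := by
    rw [← huv]
    exact Finset.sum_congr rfl fun l _ => mul_comm _ _
  have h2 : ∑ l, ((if i = l then (1 : k) else 0) + (s - 1) * (u i * v l)) *
      ((if l = j then 1 else 0) + (t - 1) * (u l * v j)) =
      (if i = j then 1 else 0) + (t - 1) * (u i * v j) + (s - 1) * (u i * v j) +
        (s - 1) * (t - 1) * (u i * v j) * ∑ l, v l * u l := by
    have h3 : ∀ l, ((if i = l then (1 : k) else 0) + (s - 1) * (u i * v l)) *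
      ((if l = j then 1 else 0) + (t - 1) * (u l * v j)) =
      (if i = l then ((if l = j then 1 else 0) + (t - 1) * (u l * v j)) else 0) +
      (if l = j then (s - 1) * (u i * v l) else 0) +
      (s - 1) * (t - 1) * (u i * v j) * (v l * u l) := by
      intro l
      split_ifs <;> ring
    rw [Finset.sum_congr rfl fun l _ => h3 l, Finset.sum_add_distrib, Finset.sum_add_distrib,
      Finset.sum_ite_eq, Finset.sum_ite_eq', ← Finset.mul_sum]
    simp
  rw [Matrix.mul_apply]
  simp only [rk1]
  rw [h2, h1]
  ring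

theorem par_symm {x y : k × k} (h : par x y) : par y x := by
  unfold par at *
  linear_combination -h

theorem par_refl (x : k × k) : par x x := by
  unfold par
  ring

theorem par_trans {x y z : k × k} (hy : y ≠ 0) (h1 : par x y) (h2 : par y z) : par x z := by
  unfold par at *
  have h3 : y.1 ≠ 0 ∨ y.2 ≠ 0 := by
    by_contra h
    push Not at h
    exact hy (Prod.ext h.1 h.2)
  rcases h3 with h3 | h3
  · apply mul_left_cancel₀ h3
    linear_combination z.1 * h1 + x.1 * h2
  · apply mul_left_cancel₀ h3
    linear_combination z.2 * h1 + x.2 * h2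

/-- Parallel to a nonzero vector: a multiple. -/
theorem exists_smul_of_par {x y : k × k} (hx : x ≠ 0) (h : par x y) : ∃ c : k, y = c • x := by
  unfold par at h
  by_cases h1 : x.1 = 0
  · have h2 : x.2 ≠ 0 := fun h2 => hx (Prod.ext h1 h2)
    refine ⟨y.2 / x.2, Prod.ext ?_ ?_⟩
    · rw [h1] at h
      simp only [zero_mul] at h
      have h3 : y.1 = 0 := by
        rcases mul_eq_zero.1 h.symm with h3 | h3
        · exact absurd h3 h2
        · exact h3
      simp [h1, h3]
    · simp only [Prod.smul_snd, smul_eq_mul]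
      field_simp
  · refine ⟨y.1 / x.1, Prod.ext ?_ ?_⟩
    · simp only [Prod.smul_fst, smul_eq_mul]
      field_simp
    · simp only [Prod.smul_snd, smul_eq_mul]
      field_simp
      linear_combination h

theorem par_smul_left {x y : k × k} {c : k} (hc : c ≠ 0) : par (c • x) y ↔ par x y := by
  unfold par
  simp only [Prod.smul_fst, Prod.smul_snd, smul_eq_mul]
  constructor
  · intro h
    apply mul_left_cancel₀ hc
    linear_combination h
  · intro h
    linear_combination c * h

theorem par_smul_right {x y : k × k} {c : k} (hc : c ≠ 0) : par x (c • y) ↔ par x y :=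
  ⟨fun h => par_symm ((par_smul_left hc).1 (par_symm h)),
    fun h => par_symm ((par_smul_left hc).2 (par_symm h))⟩

theorem HasPat.smul {π : Fin N → Fin N → Bool} {χ : Tup N k} (h : HasPat π χ) {c : Fin N → k}
    (hc : ∀ i, c i ≠ 0) : HasPat π fun i => c i • χ i :=
  ⟨fun i => smul_ne_zero (hc i) (h.1 i), fun i j => by
    rw [par_smul_left (hc i), par_smul_right (hc j)]
    exact h.2 i j⟩

end

end PL
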