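import Mathlib

/-!
# MP_bae8ce_ag : functions on tuples of vectors of `k²` (definitions for the spanning theorem)
-/

set_option autoImplicit false

open Finset

namespace PL

noncomputable section

variable {k : Type} [Field k] [Fintype k] [DecidableEq k] {N : ℕ}

/-- Tuples of vectors of `k²`. -/
abbrev Tup (N : ℕ) (k : Type) : Type := Fin N → k × k

/-- The action of a matrix on tuples: `(A χ)_i = ∑_j A_ij χ_j`. -/
def act (A : Matrix (Fin N) (Fin N) k) (χ : Tup N k) : Tup N k := fun i => ∑ j, A i j • χ j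

/-- The scalar product of two real functions. -/
def ip (f h : Tup N k → ℝ) : ℝ := ∑ χ, f χ * h χ

/-- The square of the norm. -/
def nr (f : Tup N k → ℝ) : ℝ := ∑ χ, f χ ^ 2

/-- The number of elements of `k`, as a real number. -/
def qq (k : Type) [Fintype k] : ℝ := (Fintype.card k : ℝ)

/-- Invariance under scaling of each variable. -/
def TInv (f : Tup N k → ℝ) : Prop :=
  ∀ c : Fin N → k, (∀ i, c i ≠ 0) → ∀ χ, f (fun i => c i • χ i) = f χ

/-- Two vectors are linearly dependent. -/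
def par (x y : k × k) : Prop := x.1 * y.2 = x.2 * y.1

/-- The diagonal matrix with entries `1`, except for `s` at the place `i`. -/
def dg (i : Fin N) (s : k) : Matrix (Fin N) (Fin N) k :=
  Matrix.diagonal (Function.update (fun _ => 1) i s)

/-- The matrix `1 + c u vᵀ`. -/
def rk1 (u v : Fin N → k) (c : k) : Matrix (Fin N) (Fin N) k :=
  fun i j => (if i = j then 1 else 0) + c * (u i * v j)

/-- The matrix which adds `r ∑ w_l χ_l` to `χ_i`. -/
def up (i : Fin N) (w : Fin N → k) (r : k) : Matrix (Fin N) (Fin N) k :=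
  rk1 (Function.update (fun _ => 0) i 1) w r

/-- `χ` has no zero entry and its pattern of parallel entries is `π`. -/
def HasPat (π : Fin N → Fin N → Bool) (χ : Tup N k) : Prop :=
  (∀ i, χ i ≠ 0) ∧ ∀ i j, par (χ i) (χ j) ↔ π i j = true

open Classical in
/-- Restriction of a function to the tuples of pattern `π`. -/
def rs (π : Fin N → Fin N → Bool) (Φ : Tup N k → ℝ) : Tup N k → ℝ :=
  fun χ => if HasPat π χ then Φ χ else 0

/-- The formal properties of the functions under consideration. -/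
structure Adm0 {r : ℕ} (Φ : Tup (r + 2) k → ℝ) : Prop where
  scale : TInv Φ
  zero : ∀ χ i, χ i = 0 → Φ χ = 0
  marg : ∀ χ i, ∑ y : k × k, Φ (Function.update χ i y) = 0
  symm : ∀ σ : Equiv.Perm (Fin (r + 2)), σ 0 = 0 → ∀ χ, Φ (χ ∘ σ) = Φ χ
  diag : ∀ y : k × k, Φ (fun _ => y) = 0

variable {p : ℕ}

/-- The matrices of the pencil relation: the rows are `(1, [ε_0], a_0)` for `i = 0` and
`([ε_i], 1, a_i)` for `i ≠ 0`. -/
def GM {r : ℕ} (ε : Fin (r + 2) → Bool) (a : Fin (r + 2) → Fin r → ZMod p) :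
    Matrix (Fin (r + 2)) (Fin (r + 2)) (ZMod p) :=
  fun i => Fin.cons (if i = 0 ∨ ε i = true then 1 else 0)
    (Fin.cons (if i ≠ 0 ∨ ε i = true then 1 else 0) (a i))

/-- The sign of a choice. -/
def sg {r : ℕ} (ε : Fin (r + 2) → Bool) : ℝ := ∏ i, if ε i = true then -1 else 1

/-- Base change from `𝔽_p` to `k`. -/
def bc [Algebra (ZMod p) k] (A : Matrix (Fin N) (Fin N) (ZMod p)) :
    Matrix (Fin N) (Fin N) k := A.map (algebraMap (ZMod p) k)

/-- The pencil relation. -/
def Pencil (p : ℕ) [NeZero p] [Algebra (ZMod p) k] {r : ℕ} (Φ : Tup (r + 2) k → ℝ) : Prop :=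
  ∀ z, ∑ ε : Fin (r + 2) → Bool, ∑ a : Fin (r + 2) → Fin r → ZMod p,
    sg ε * Φ (act (bc (GM ε a)) z) = 0

/-- The tuple is linearly independent over `𝔽_p`. -/
def Full (p : ℕ) [Algebra (ZMod p) k] (ζ : Tup N k) : Prop :=
  ∀ c : Fin N → ZMod p, c ≠ 0 → ∑ j, algebraMap (ZMod p) k (c j) • ζ j ≠ 0

/-- Every row of `g` is supported in one block of `π`. -/
def BP (π : Fin N → Fin N → Bool) (g : Matrix (Fin N) (Fin N) (ZMod p)) : Prop :=
  ∀ i, ∃ b, ∀ j, g i j ≠ 0 → π b j = true

end

end PL
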