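import Pool.Agent.Helper91.PL.A7
import Pool.Agent.Helper91.PL.X1
import Pool.Agent.Helper91.PL.X2

/-!
# MP_bae8ce_ag : the final assembly
-/

set_option autoImplicit false

open scoped TensorProduct

namespace PL

noncomputable section

theorem x4_pow (p : ℕ) [Fact p.Prime] (F : Type) [Field F] [Algebra (ZMod p) F]
    [IsAlgClosure (ZMod p) F] (x : F) : ∃ m, 0 < m ∧ x ^ p ^ m = x := by
  have hx : IsIntegral (ZMod p) x :=
    (IsAlgClosure.isAlgebraic (R := ZMod p) (K := F)).isIntegral.isIntegral x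
  have : FiniteDimensional (ZMod p) (IntermediateField.adjoin (ZMod p) {x}) :=
    IntermediateField.adjoin.finiteDimensional hx
  have : Finite (IntermediateField.adjoin (ZMod p) {x}) := Module.finite_of_finite (ZMod p)
  let _ : Fintype (IntermediateField.adjoin (ZMod p) {x}) := Fintype.ofFinite _
  have : CharP (IntermediateField.adjoin (ZMod p) {x}) p :=
    charP_of_injective_algebraMap
      (algebraMap (ZMod p) (IntermediateField.adjoin (ZMod p) {x})).injective p
  obtain ⟨n, hp, hn⟩ := FiniteField.card (IntermediateField.adjoin (ZMod p) {x}) p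
  refine ⟨n, n.pos, ?_⟩
  have h := FiniteField.pow_card (⟨x, IntermediateField.mem_adjoin_simple_self (ZMod p) x⟩ :
    IntermediateField.adjoin (ZMod p) {x})
  rw [hn] at h
  exact congrArg Subtype.val h

section

variable (K : Type) [Field K]

theorem x4_T_eq : ∀ k j : ℕ, T K k j = Γ K k j
  | 0, _ => rfl
  | 1, _ => rfl
  | _ + 2, _ => rfl

/-- The differential. -/
def x4_d : Dif K
  | 0, _ => 0
  | 1, j => d K 1 j
  | q + 2, j => d K (q + 2) j

theorem x4_wdg (j : ℕ) (v : V K) (l : W K j) : wdg K j v l = wedge K j v l := rfl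

variable {K}

theorem x4_ext (q j : ℕ) {N : Type} [AddCommGroup N] [Module ℚ N]
    (f g : B (q + 2) K ⊗[ℚ] W K j →ₗ[ℚ] N)
    (h : ∀ x l, f (sym (q + 2) x ⊗ₜ l) = g (sym (q + 2) x ⊗ₜ l)) : f = g := by
  apply TensorProduct.ext
  apply Submodule.linearMap_qext
  apply Finsupp.lhom_ext'
  intro x
  apply LinearMap.ext_ring
  apply LinearMap.ext
  intro l
  exact h x l

theorem x4_isDif (hR : ∀ q, R (q + 2) K = NN q K) : IsDif K (x4_d K) := by
  constructor
  · intro j x l
    have h := wd2 K (hR 0) j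
    have h1 : d K 1 j (sym 2 x ⊗ₜ l) =
        descend (N := ⋀[ℚ]^j (V K) →ₗ[ℚ] ⋀[ℚ]^(j + 2) (V K)) (R 2 K) (pre2 K j) (sym 2 x) l :=
      rfl
    have h2 : descend (N := ⋀[ℚ]^j (V K) →ₗ[ℚ] ⋀[ℚ]^(j + 2) (V K)) (R 2 K) (pre2 K j) (sym 2 x) =
        pre2 K j (Finsupp.single x 1) := by
      unfold descend
      rw [dif_pos h]
      rfl
    change d K 1 j (sym 2 x ⊗ₜ l) = _
    rw [h1, h2]
    unfold pre2
    rw [Finsupp.linearCombination_single, one_smul]
    rfl
  · intro q j x l
    have h := wd3 K q (hR q) (hR (q + 1)) j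
    have h1 : d K (q + 2) j (sym (q + 3) x ⊗ₜ l) =
        descend (N := ⋀[ℚ]^j (V K) →ₗ[ℚ] B (q + 2) K ⊗[ℚ] ⋀[ℚ]^(j + 1) (V K))
          (R (q + 3) K) (pre3 K q j) (sym (q + 3) x) l := rfl
    have h2 : descend (N := ⋀[ℚ]^j (V K) →ₗ[ℚ] B (q + 2) K ⊗[ℚ] ⋀[ℚ]^(j + 1) (V K))
        (R (q + 3) K) (pre3 K q j) (sym (q + 3) x) = pre3 K q j (Finsupp.single x 1) := by
      unfold descend
      rw [dif_pos h]
      rfl
    change d K (q + 2) j (sym (q + 3) x ⊗ₜ l) = _
    rw [h1, h2]
    unfold pre3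
    rw [Finsupp.linearCombination_single, one_smul]
    rfl

theorem x4_unique (e : Dif K) (he : IsDif K e) (hR : ∀ q, R (q + 2) K = NN q K) :
    e = x4_d K := by
  have h := x4_isDif hR
  funext k j
  match k with
  | 0 =>
    apply LinearMap.ext
    intro x
    exact Subsingleton.elim (α := PUnit) _ _
  | 1 =>
    refine x4_ext (K := K) 0 j (N := Γ K 1 (j + 1)) (e 1 j) (x4_d K 1 j) fun x l => ?_
    exact (he.two j x l).trans (h.two j x l).symm
  | q + 2 =>
    refine x4_ext (K := K) (q + 1) j (N := Γ K (q + 2) (j + 1)) (e (q + 2) j)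
      (x4_d K (q + 2) j) fun x l => ?_
    exact (he.three q j x l).trans (h.three q j x l).symm

end

variable {F : Type} [Field F]

theorem x4_sub (p : ℕ) [Fact p.Prime] [CharP F p]
    (hF : ∀ x : F, ∃ m, 0 < m ∧ x ^ p ^ m = x) (hR : ∀ q, R (q + 2) F = NN q F) (k j : ℕ)
    (h : 1 ≤ k + j) : Subsingleton (Γ F k j) := by
  have h1 := T_subsingleton p hF hR k j h
  rwa [x4_T_eq] at h1

theorem x4_main (p : ℕ) [Fact p.Prime] [CharP F p] [IsAlgClosed F]
    (hF : ∀ x : F, ∃ m, 0 < m ∧ x ^ p ^ m = x) (X : Set (P1 F)) :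
    (∃ d, IsDif (RatFunc F) d) ∧ (∃ d', IsDif F d') ∧
      ∀ d d', IsDif (RatFunc F) d → IsDif F d' → ∀ r : Res F X, Acyclic d d' r := by
  have hb : Tow p F _ := Tow.base F _ inferInstance hF
  have hR0 : ∀ q, R (q + 2) F = NN q F := fun q => R_eq_NN p q F _ hb
  have hR1 : ∀ q, R (q + 2) (RatFunc F) = NN q (RatFunc F) :=
    fun q => R_eq_NN p q (RatFunc F) _ (Tow.step F _ hb)
  refine ⟨⟨_, x4_isDif hR1⟩, ⟨_, x4_isDif hR0⟩, ?_⟩
  intro e e' he he' r
  obtain rfl := x4_unique e he hR1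
  obtain ⟨hinj', hex'⟩ := exact_T p hF hR1
  have hinj : ∀ k, 1 ≤ k → Function.Injective (x4_d (RatFunc F) k 0) := by
    intro k hk
    match k with
    | 0 => omega
    | 1 => exact hinj' 1 le_rfl
    | q + 2 => exact hinj' (q + 2) (by omega)
  have hex : ∀ k j, Function.Exact (x4_d (RatFunc F) (k + 1) j)
      (x4_d (RatFunc F) k (j + 1)) := by
    intro k j
    match k with
    | 0 => exact hex' 0 j
    | 1 => exact hex' 1 j
    | q + 2 => exact hex' (q + 2) j
  have hsub : ∀ k j, 1 ≤ k + j → Subsingleton (ΓP F X k j) := by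
    intro k j h
    have := x4_sub p hF hR0 k j h
    exact ⟨fun a b => Finsupp.ext (f := (a : X →₀ Γ F k j)) (g := b)
      fun _ => Subsingleton.elim _ _⟩
  refine ⟨fun k hk => hinj k hk, ?_, ?_⟩
  · intro k j
    match j with
    | 0 =>
      have := hsub (k + 1) 0 (by omega)
      intro x
      have h0 := hex k 0 x
      constructor
      · intro h
        have h1 : x4_d (RatFunc F) k 1 x = 0 := congrArg Prod.fst h
        exact h0.1 h1
      · intro h
        have h1 := h0.2 h
        exact Prod.ext h1 (Subsingleton.elim _ _)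
    | 1 =>
      have := hsub (k + 1) 1 (by omega)
      have := hsub (k + 2) 0 (by omega)
      rintro ⟨x, y⟩
      have h0 := hex k 1 x
      constructor
      · intro h
        have h1 : x4_d (RatFunc F) k 2 x = 0 := congrArg Prod.fst h
        obtain ⟨z, hz⟩ := h0.1 h1
        exact ⟨z, Prod.ext hz (Subsingleton.elim _ _)⟩
      · rintro ⟨z, hz⟩
        have h1 : x4_d (RatFunc F) (k + 1) 1 z = x := congrArg Prod.fst hz
        have h2 := h0.2 ⟨z, h1⟩
        exact Prod.ext h2 (Subsingleton.elim _ _)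
    | (j' + 2) =>
      have := hsub (k + 1) (j' + 2) (by omega)
      have := hsub (k + 2) (j' + 1) (by omega)
      rintro ⟨x, y⟩
      have h0 := hex k (j' + 2) x
      constructor
      · intro h
        have h1 : x4_d (RatFunc F) k (j' + 3) x = 0 := congrArg Prod.fst h
        obtain ⟨z, hz⟩ := h0.1 h1
        exact ⟨(z, 0), Prod.ext hz (Subsingleton.elim _ _)⟩
      · rintro ⟨z, hz⟩
        have h1 : x4_d (RatFunc F) (k + 1) (j' + 2) z.1 = x := congrArg Prod.fst hz
        have h2 := h0.2 ⟨z.1, h1⟩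
        exact Prod.ext h2 (Subsingleton.elim _ _)
  · intro j
    have := hsub 1 j (by omega)
    intro y
    exact ⟨0, Prod.ext (Subsingleton.elim (α := PUnit) _ _) (Subsingleton.elim _ _)⟩

end

end PL
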